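import Pool.Agent.Helper41.KL.Defs
import Pool.Agent.Helper41.KL.Grp
import Pool.Agent.Helper91.KF.F3

set_option autoImplicit false
set_option maxRecDepth 100000

/-!
# Arrangements and automorphisms on coloured masks
-/

namespace KL

open KF KC

/-- Swap of the vertices `i`, `i + 1`. -/
def tC (i N : Nat) : Nat := mkN (tau i (rt N)) (fun j => col N (sw i j))

/-- Apply a word. -/
def awC : List Nat → Nat → Nat
  | [], N => N
  | i :: l, N => awC l (tC i N)

/-- A map of colours, three bits for each colour. -/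
def ac (a x : Nat) : Nat := a / 8 ^ x % 8

/-- Apply a map of colours. -/
def aC (a N : Nat) : Nat := mkN (rt N) (fun j => ac a (col N j))

theorem ac_lt (a x : Nat) : ac a x < 8 := Nat.mod_lt _ (by norm_num)

theorem tC_lt (i N : Nat) : tC i N < 2 ^ 25 := mkN_lt _ _
theorem aC_lt (a N : Nat) : aC a N < 2 ^ 25 := mkN_lt _ _

theorem rt_rt (m : Nat) : rt (rt m) = rt m := Nat.mod_mod _ _

theorem rt_tau_rt (i : Nat) (hi : i < 4) (m : Nat) : rt (tau i (rt m)) = rt (tau i m) :=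
  (rt_awl [i] m (by simp [w4, Nat.blt_eq, hi])).symm

theorem rt_tC (i N : Nat) : rt (tC i N) = rt (tau i (rt N)) := rt_mkN _ _

theorem sw_lt {i j : Nat} (hi : i < 4) (hj : j < 5) : sw i j < 5 := by
  unfold sw
  split
  · omega
  · split <;> omega

theorem col_tC {i : Nat} (N : Nat) {j : Nat} (hj : j < 5) :
    col (tC i N) j = col N (sw i j) := by
  rw [tC, col_mkN _ _ j hj, Nat.mod_eq_of_lt (col_lt _ _)]

theorem rt_aC (a N : Nat) : rt (aC a N) = rt N := by
  rw [aC, rt_mkN, rt_rt]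

theorem col_aC (a N : Nat) {j : Nat} (hj : j < 5) : col (aC a N) j = ac a (col N j) := by
  rw [aC, col_mkN _ _ j hj, Nat.mod_eq_of_lt (ac_lt _ _)]

theorem aC_tC {i : Nat} (hi : i < 4) (a N : Nat) : aC a (tC i N) = tC i (aC a N) :=
  ext (aC_lt _ _) (tC_lt _ _) (by rw [rt_aC, rt_tC, rt_tC, rt_aC]) fun j hj => by
    rw [col_aC _ _ hj, col_tC _ hj, col_tC _ hj, col_aC _ _ (sw_lt hi hj)]

theorem awC_lt {N : Nat} (hN : N < 2 ^ 25) : ∀ W : List Nat, awC W N < 2 ^ 25 := by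
  intro W
  induction W generalizing N with
  | nil => exact hN
  | cons i l ih => exact ih (tC_lt i N)

theorem aC_awC (a : Nat) : ∀ (W : List Nat) (N : Nat), w4 W = true →
    awC W (aC a N) = aC a (awC W N)
  | [], _, _ => rfl
  | i :: l, N, h => by
    obtain ⟨h1, h2⟩ := w4_cons.1 h
    rw [awC, awC, ← aC_tC h1, aC_awC a l _ h2]

/-- The vertex read by a word. -/
def vwn (W : List Nat) (j : Nat) : Nat := (vw W (f7 j)).1

theorem f7_val (x : Fin 7) : f7 x.1 = x := Fin.ext (Nat.mod_eq_of_lt x.2)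

theorem swF_val {i : Nat} (hi : i < 6) (x : Fin 7) : (swF i x).1 = sw i x.1 := by
  unfold swF f7
  refine Nat.mod_eq_of_lt ?_
  have := x.2
  unfold sw
  split
  · omega
  · split <;> omega

theorem vwn_lt : ∀ (W : List Nat), w4 W = true → ∀ j < 5, vwn W j < 5
  | [], _, j, hj => by
    change j % 7 < 5
    omega
  | i :: l, h, j, hj => by
    obtain ⟨h1, h2⟩ := w4_cons.1 h
    have := vwn_lt l h2 j hj
    change (swF i (vw l (f7 j))).1 < 5
    rw [swF_val (by omega)]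
    exact sw_lt h1 this

theorem rt_awC : ∀ (W : List Nat) (N : Nat), w4 W = true → rt (awC W N) = rt (awl W (rt N))
  | [], N, _ => (rt_rt N).symm
  | i :: l, N, h => by
    obtain ⟨h1, h2⟩ := w4_cons.1 h
    rw [awC, rt_awC l _ h2, rt_tC, awl, ← rt_awl l _ h2]

theorem col_awC : ∀ (W : List Nat) (N : Nat), w4 W = true → ∀ j < 5,
    col (awC W N) j = col N (vwn W j)
  | [], N, _, j, hj => by
    change col N j = col N (j % 7)
    rw [show j % 7 = j by omega]
  | i :: l, N, h, j, hj => by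
    obtain ⟨h1, h2⟩ := w4_cons.1 h
    rw [awC, col_awC l _ h2 j hj, col_tC _ (vwn_lt l h2 j hj)]
    congr 1
    change _ = (swF i (vw l (f7 j))).1
    rw [swF_val (by omega)]
    rfl

/-- Words with the same permutation act in the same way. -/
theorem awC_eq {W W' : List Nat} (h : w4 W = true) (h' : w4 W' = true) (he : eq7 W W' = true)
    {N : Nat} (hN : N < 2 ^ 25) : awC W N = awC W' N := by
  have hv := vw_of_eq7 (w4_wok h) (w4_wok h') he
  refine ext (awC_lt hN _) (awC_lt hN _) ?_ fun j hj => ?_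
  · rw [rt_awC _ _ h, rt_awC _ _ h', awl_of_eq7 (w4_wok h) (w4_wok h') he]
    exact lt_trans (rt_lt N) (by norm_num)
  · rw [col_awC _ _ h j hj, col_awC _ _ h' j hj]
    unfold vwn
    rw [hv]

/-! ## The sum over the arrangements and the automorphisms -/

/-- The words. -/
def P5 : List (List Nat) := treeS.tr

theorem P5_w4 : ∀ W ∈ P5, w4 W = true := by
  have : (P5.all w4) = true := by decide +kernel
  exact List.all_eq_true.1 this

/-- Sum over the automorphisms. -/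
def sA (G : Nat → ℤ) (N : Nat) : ℤ := (AN.map fun a => G (aC a N)).sum

/-- Sum over everything. -/
def TT (G : Nat → ℤ) (N : Nat) : ℤ := (P5.map fun W => sA G (awC W N)).sum

/-- Pointwise equality of words with the words of given numbers. -/
def ckw : List (List Nat) → List Nat → Bool
  | [], [] => true
  | W :: Ws, y :: ys => (w4 W && (w4 (P5.getD y []) && eq7 W (P5.getD y []))) && ckw Ws ys
  | _, _ => false

theorem ckw_sum {f : Nat → ℤ} {N : Nat} (hN : N < 2 ^ 25) : ∀ (Ws : List (List Nat))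
    (ys : List Nat), ckw Ws ys = true →
    (Ws.map fun W => f (awC W N)).sum = (ys.map fun y => f (awC (P5.getD y []) N)).sum
  | [], [], _ => rfl
  | [], _ :: _, h => by simp [ckw] at h
  | _ :: _, [], h => by simp [ckw] at h
  | W :: Ws, y :: ys, h => by
    rw [ckw, Bool.and_eq_true, Bool.and_eq_true, Bool.and_eq_true] at h
    obtain ⟨⟨h1, h2, h3⟩, h4⟩ := h
    simp only [List.map_cons, List.sum_cons, ckw_sum hN Ws ys h4, awC_eq h1 h2 h3 hN]

theorem ckS : ∀ i < 4, ckw (P5.map fun W => i :: W) (mulS.getD i []) = true := by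
  decide +kernel

theorem pmS : ∀ i < 4, (mulS.getD i []).Perm (List.range 120) := by decide +kernel

theorem lenP5 : P5.length = 120 := by decide +kernel

theorem map_getD {α β : Type} (d : α) (g : α → β) (l : List α) :
    (List.range l.length).map (fun y => g (l.getD y d)) = l.map g := by
  refine List.ext_getElem (by simp) fun n h1 h2 => ?_
  simp only [List.length_map, List.length_range] at h1
  rw [List.getElem_map, List.getElem_map, List.getElem_range, List.getD_eq_getElem _ _ h1]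

theorem TT_tC (G : Nat → ℤ) {i : Nat} (hi : i < 4) {N : Nat} (hN : N < 2 ^ 25) :
    TT G (tC i N) = TT G N := by
  have e1 : TT G (tC i N) = ((P5.map fun W => i :: W).map fun W => sA G (awC W N)).sum := by
    rw [List.map_map]
    rfl
  rw [e1, ckw_sum hN _ _ (ckS i hi), ((pmS i hi).map _).sum_eq, ← lenP5,
    map_getD [] (fun W => sA G (awC W N))]
  rfl

/-- Composition of maps of colours. -/
def cmp (a b : Nat) : Nat :=
  ac a (ac b 0) + 8 * ac a (ac b 1) + 64 * ac a (ac b 2) + 512 * ac a (ac b 3) +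
    4096 * ac a (ac b 4) + 32768 * ac a (ac b 5) + 262144 * ac a (ac b 6) +
    2097152 * ac a (ac b 7)

theorem pack8 {y0 y1 y2 y3 y4 y5 y6 y7 S : Nat} (h0 : y0 < 8) (h1 : y1 < 8) (h2 : y2 < 8)
    (h3 : y3 < 8) (h4 : y4 < 8) (h5 : y5 < 8) (h6 : y6 < 8) (h7 : y7 < 8)
    (hS : S = y0 + 8 * y1 + 64 * y2 + 512 * y3 + 4096 * y4 + 32768 * y5 + 262144 * y6 +
      2097152 * y7) :
    S % 8 = y0 ∧ S / 8 % 8 = y1 ∧ S / 64 % 8 = y2 ∧ S / 512 % 8 = y3 ∧ S / 4096 % 8 = y4 ∧
      S / 32768 % 8 = y5 ∧ S / 262144 % 8 = y6 ∧ S / 2097152 % 8 = y7 := by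
  subst hS
  refine ⟨?_, ?_, ?_, ?_, ?_, ?_, ?_, ?_⟩ <;> omega

theorem ac_0 (a : Nat) : ac a 0 = a % 8 := by
  unfold ac
  rw [Nat.pow_zero, Nat.div_one]

theorem ac_of (a x y : Nat) (h : 8 ^ x = y) : ac a x = a / y % 8 := by
  unfold ac
  rw [h]

theorem ac_cmp (a b : Nat) : ∀ x < 8, ac (cmp a b) x = ac a (ac b x) := by
  intro x hx
  have h := fun y => ac_lt a (ac b y)
  generalize hc : cmp a b = c
  have hS : c = ac a (ac b 0) + 8 * ac a (ac b 1) + 64 * ac a (ac b 2) +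
      512 * ac a (ac b 3) + 4096 * ac a (ac b 4) + 32768 * ac a (ac b 5) +
      262144 * ac a (ac b 6) + 2097152 * ac a (ac b 7) := hc.symm
  obtain ⟨e0, e1, e2, e3, e4, e5, e6, e7⟩ :=
    pack8 (h 0) (h 1) (h 2) (h 3) (h 4) (h 5) (h 6) (h 7) hS
  have : x = 0 ∨ x = 1 ∨ x = 2 ∨ x = 3 ∨ x = 4 ∨ x = 5 ∨ x = 6 ∨ x = 7 := by omega
  rcases this with rfl | rfl | rfl | rfl | rfl | rfl | rfl | rfl
  · exact (ac_0 c).trans e0
  · exact (ac_of c 1 8 (by norm_num)).trans e1
  · exact (ac_of c 2 64 (by norm_num)).trans e2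
  · exact (ac_of c 3 512 (by norm_num)).trans e3
  · exact (ac_of c 4 4096 (by norm_num)).trans e4
  · exact (ac_of c 5 32768 (by norm_num)).trans e5
  · exact (ac_of c 6 262144 (by norm_num)).trans e6
  · exact (ac_of c 7 2097152 (by norm_num)).trans e7

theorem aC_aC (a b N : Nat) : aC a (aC b N) = aC (cmp a b) N :=
  ext (aC_lt _ _) (aC_lt _ _) (by rw [rt_aC, rt_aC, rt_aC]) fun j hj => by
    rw [col_aC _ _ hj, col_aC _ _ hj, col_aC _ _ hj, ac_cmp _ _ _ (col_lt _ _)]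

theorem AN_map : ∀ i < 2, (AN.map fun a => cmp a (GN.getD i 0)) = mulA.getD i [] := by
  decide +kernel

theorem AN_perm : ∀ i < 2, (mulA.getD i []).Perm AN := by decide +kernel

theorem AN_mul : ∀ b ∈ GN, (AN.map fun a => cmp a b).Perm AN := by
  intro b hb
  obtain ⟨i, hi, rfl⟩ := List.mem_iff_getElem.1 hb
  have h2 : i < 2 := hi
  have h3 : GN[i] = GN.getD i 0 := (List.getD_eq_getElem _ _ hi).symm
  have h4 := AN_map i h2
  have h5 := AN_perm i h2
  rw [← h4, ← h3] at h5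
  exact h5

theorem sA_aC (G : Nat → ℤ) {b : Nat} (hb : b ∈ GN) (N : Nat) : sA G (aC b N) = sA G N := by
  unfold sA
  simp only [aC_aC]
  have := ((AN_mul b hb).map fun a => G (aC a N)).sum_eq
  rw [List.map_map] at this
  exact this

theorem TT_aC (G : Nat → ℤ) {b : Nat} (hb : b ∈ GN) (N : Nat) : TT G (aC b N) = TT G N := by
  unfold TT
  congr 1
  refine List.map_congr_left fun W hW => ?_
  rw [aC_awC b W N (P5_w4 W hW), sA_aC G hb]

theorem TT_awC (G : Nat → ℤ) : ∀ (W : List Nat) {N : Nat}, w4 W = true → N < 2 ^ 25 →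
    TT G (awC W N) = TT G N
  | [], _, _, _ => rfl
  | i :: l, N, h, hN => by
    obtain ⟨h1, h2⟩ := w4_cons.1 h
    rw [awC, TT_awC G l h2 (tC_lt i N), TT_tC G h1 hN]

/-! ## Samples -/

/-- The map of the colours of an automorphism. -/
def acF (a : Nat) (x : Fin 6) : Fin 6 := ⟨ac a x.1 % 6, Nat.mod_lt _ (by norm_num)⟩

theorem acF_val : ∀ a ∈ AN, ∀ x : Fin 6, (acF a x).1 = ac a x.1 := by decide +kernel

theorem ac_isB : ∀ a ∈ AN, ∀ x < 6, ∀ y < 6, ∀ z < 6,
    isB (ac a x) (ac a y) (ac a z) = isB x y z := by decide +kernel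

theorem acF_D6 (a : Nat) (ha : a ∈ AN) (x y z : Fin 6) :
    D6 (acF a x) (acF a y) (acF a z) = D6 x y z := by
  rw [← isB_D6, ← isB_D6, acF_val a ha, acF_val a ha, acF_val a ha]
  exact ac_isB a ha x.1 x.2 y.1 y.2 z.1 z.2

theorem acF_inj : ∀ a ∈ AN, ∀ x y : Fin 6, acF a x = acF a y → x = y := by decide +kernel

section
variable {V : Type} {E : V → V → V → Bool}

theorem aC_cm (E : V → V → V → Bool) {a : Nat} (ha : a ∈ AN) (k : V → Fin 6) (φ : Fin 5 → V) :
    aC a (cm E k φ) = cm E (fun v => acF a (k v)) φ :=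
  ext (aC_lt _ _) (cm_lt _ _ _) (by rw [rt_aC, cm, cm, rt_mkN, rt_mkN]) fun j hj => by
    rw [col_aC _ _ hj]
    have h1 := cm_col E k φ ⟨j, hj⟩
    have h2 := cm_col E (fun v => acF a (k v)) φ ⟨j, hj⟩
    simp only at h1 h2
    rw [h1, h2, acF_val a ha]

/-- The swap as a permutation. -/
def s5 (i : Nat) : Equiv.Perm (Fin 5) := Equiv.swap (f5 i) (f5 (i + 1))

theorem s5_g5 : ∀ i < 4, ∀ t < 10, s5 i (g5 (f7 (KC.tri t).1)) = g5 (swF i (f7 (KC.tri t).1)) ∧
    s5 i (g5 (f7 (KC.tri t).2.1)) = g5 (swF i (f7 (KC.tri t).2.1)) ∧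
    s5 i (g5 (f7 (KC.tri t).2.2)) = g5 (swF i (f7 (KC.tri t).2.2)) := by decide +kernel

theorem s5_f5 : ∀ i < 4, ∀ j < 5, s5 i (f5 j) = f5 (sw i j) := by decide +kernel

theorem cm_swap (hE : K4m E) (k : V → Fin 6) (φ : Fin 5 → V) {i : Nat} (hi : i < 4) :
    cm E k (fun a => φ (s5 i a)) = tC i (cm E k φ) := by
  refine ext (cm_lt _ _ _) (tC_lt _ _) ?_ fun j hj => ?_
  · rw [rt_tC, cm, cm, rt_mkN, rt_mkN, rt_tau_rt i hi, ← msk_swap hE _ i (by omega)]
    refine Nat.eq_of_testBit_eq fun t => ?_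
    by_cases ht : t < 10
    · rw [← testBit_rt _ _ ht, ← testBit_rt _ _ ht, msk_testBit _ _ _ (by omega),
        msk_testBit _ _ _ (by omega)]
      obtain ⟨h1, h2, h3⟩ := s5_g5 i hi t ht
      rw [h1, h2, h3]
    · unfold rt
      rw [Nat.testBit_mod_two_pow, Nat.testBit_mod_two_pow]
      simp [ht]
  · rw [col_tC _ hj]
    have h1 := cm_col E k (fun a => φ (s5 i a)) ⟨j, hj⟩
    have h2 := cm_col E k φ ⟨sw i j, sw_lt hi hj⟩
    simp only at h1 h2
    rw [h1, h2]
    have h3 := s5_f5 i hi j hj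
    have e1 : f5 j = ⟨j, hj⟩ := by unfold f5; rw [dif_pos hj]
    have e2 : f5 (sw i j) = ⟨sw i j, sw_lt hi hj⟩ := by
      unfold f5
      rw [dif_pos (sw_lt hi hj)]
    rw [e1, e2] at h3
    rw [h3]

variable [Fintype V] {w : V → ℝ}

theorem Ev_tC (hE : K4m E) (hw : Wt w) (k : V → Fin 6) (f : Nat → ℝ) {i : Nat} (hi : i < 4) :
    Ev 5 w (fun φ => f (tC i (cm E k φ))) = Ev 5 w (fun φ => f (cm E k φ)) := by
  rw [← Ev_perm (s5 i) w hw.one (fun φ => f (cm E k φ))]
  refine Ev_congr 5 w fun φ => ?_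
  rw [cm_swap hE k φ hi]

theorem Ev_awC (hE : K4m E) (hw : Wt w) (k : V → Fin 6) : ∀ (W : List Nat) (f : Nat → ℝ),
    w4 W = true → Ev 5 w (fun φ => f (awC W (cm E k φ))) = Ev 5 w (fun φ => f (cm E k φ))
  | [], _, _ => rfl
  | i :: l, f, h => by
    obtain ⟨h1, h2⟩ := w4_cons.1 h
    have e := Ev_tC hE hw k (fun N => f (awC l N)) h1
    change Ev 5 w (fun φ => f (awC l (tC i (cm E k φ)))) = _
    rw [e, Ev_awC hE hw k l f h2]

theorem Ev_listsum {α : Type} (w : V → ℝ) (l : List α) (f : α → (Fin 5 → V) → ℝ) :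
    Ev 5 w (fun φ => (l.map fun a => f a φ).sum) = (l.map fun a => Ev 5 w (f a)).sum := by
  induction l with
  | nil =>
    simp only [List.map_nil, List.sum_nil]
    unfold Ev
    simp
  | cons a l ih =>
    simp only [List.map_cons, List.sum_cons]
    rw [Ev_add, ih]

/-- **The expectation of the total.** -/
theorem Ev_TT (hE : K4m E) (hw : Wt w) (k : V → Fin 6) (G : Nat → ℤ) :
    Ev 5 w (fun φ => ((TT G (cm E k φ) : ℤ) : ℝ)) =
      120 * (AN.map fun a => Ev 5 w (fun φ => ((G (cm E (fun v => acF a (k v)) φ) : ℤ) : ℝ))).sum := by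
  have h1 : ∀ φ, ((TT G (cm E k φ) : ℤ) : ℝ) =
      (P5.map fun W => ((sA G (awC W (cm E k φ)) : ℤ) : ℝ)).sum := by
    intro φ
    unfold TT
    rw [Int.cast_list_sum, List.map_map]
    rfl
  rw [Ev_congr 5 w h1, Ev_listsum]
  have h2 : ∀ W ∈ P5, Ev 5 w (fun φ => ((sA G (awC W (cm E k φ)) : ℤ) : ℝ)) =
      Ev 5 w (fun φ => ((sA G (cm E k φ) : ℤ) : ℝ)) := fun W hW =>
    Ev_awC hE hw k W (fun N => ((sA G N : ℤ) : ℝ)) (P5_w4 W hW)
  rw [List.map_congr_left h2, List.map_const', List.sum_replicate, lenP5, nsmul_eq_mul]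
  congr 1
  have h3 : ∀ φ, ((sA G (cm E k φ) : ℤ) : ℝ) =
      (AN.map fun a => ((G (aC a (cm E k φ)) : ℤ) : ℝ)).sum := by
    intro φ
    unfold sA
    rw [Int.cast_list_sum, List.map_map]
    rfl
  rw [Ev_congr 5 w h3, Ev_listsum]
  congr 1
  refine List.map_congr_left fun a ha => ?_
  refine Ev_congr 5 w fun φ => ?_
  rw [aC_cm E ha]

end

end KL
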