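import Pool.Agent.Helper13.KC.S5b
import Pool.Agent.Helper13.KC.S3
import Pool.Agent.Helper91.KF.F2

set_option autoImplicit false

/-!
# Coloured masks on five vertices

A sample of five vertices with colours below 6 is coded by the mask of the ten triples (bits
`0 .. 9`, colex order) and the colours (3 bits each, from bit `10`).
-/

namespace KL

open KF KC

/-- The code with mask `m` and colours `c`. -/
def mkN (m : Nat) (c : Nat → Nat) : Nat :=
  m % 1024 + 1024 * (c 0 % 8 + 8 * (c 1 % 8) + 64 * (c 2 % 8) + 512 * (c 3 % 8) +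
    4096 * (c 4 % 8))

/-- Colour of the vertex `j`. -/
def col (N j : Nat) : Nat := N / 2 ^ (10 + 3 * j) % 8

theorem mkN_lt (m : Nat) (c : Nat → Nat) : mkN m c < 2 ^ 25 := by
  unfold mkN
  have h0 := Nat.mod_lt (c 0) (show 0 < 8 by norm_num)
  have h1 := Nat.mod_lt (c 1) (show 0 < 8 by norm_num)
  have h2 := Nat.mod_lt (c 2) (show 0 < 8 by norm_num)
  have h3 := Nat.mod_lt (c 3) (show 0 < 8 by norm_num)
  have h4 := Nat.mod_lt (c 4) (show 0 < 8 by norm_num)
  have h5 := Nat.mod_lt m (show 0 < 1024 by norm_num)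
  norm_num
  omega

theorem rt_mkN (m : Nat) (c : Nat → Nat) : rt (mkN m c) = rt m := by
  unfold rt mkN
  norm_num

theorem five {P : Nat → Prop} (h0 : P 0) (h1 : P 1) (h2 : P 2) (h3 : P 3) (h4 : P 4) :
    ∀ j < 5, P j := by
  intro j hj
  have : j = 0 ∨ j = 1 ∨ j = 2 ∨ j = 3 ∨ j = 4 := by omega
  rcases this with rfl | rfl | rfl | rfl | rfl <;> assumption

theorem col_mkN (m : Nat) (c : Nat → Nat) : ∀ j < 5, col (mkN m c) j = c j % 8 := by
  refine five ?_ ?_ ?_ ?_ ?_ <;>
  · unfold col mkN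
    generalize c 0 = c0
    generalize c 1 = c1
    generalize c 2 = c2
    generalize c 3 = c3
    generalize c 4 = c4
    norm_num
    omega

theorem col_lt (N j : Nat) : col N j < 8 := Nat.mod_lt _ (by norm_num)

theorem mkN_eta {N : Nat} (hN : N < 2 ^ 25) : mkN (rt N) (col N) = N := by
  unfold mkN rt col
  norm_num at hN ⊢
  omega

/-- Two codes with the same fields are equal. -/
theorem ext {N M : Nat} (hN : N < 2 ^ 25) (hM : M < 2 ^ 25) (hr : rt N = rt M)
    (hc : ∀ j < 5, col N j = col M j) : N = M := by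
  rw [← mkN_eta hN, ← mkN_eta hM, hr]
  unfold mkN
  rw [hc 0 (by norm_num), hc 1 (by norm_num), hc 2 (by norm_num), hc 3 (by norm_num),
    hc 4 (by norm_num)]

theorem mkN_congr {m m' : Nat} {c c' : Nat → Nat} (hr : rt m = rt m')
    (hc : ∀ j < 5, c j % 8 = c' j % 8) : mkN m c = mkN m' c' :=
  ext (mkN_lt _ _) (mkN_lt _ _) (by rw [rt_mkN, rt_mkN, hr]) fun j hj => by
    rw [col_mkN _ _ j hj, col_mkN _ _ j hj, hc j hj]

theorem testBit_rt (N t : Nat) (ht : t < 10) : N.testBit t = (rt N).testBit t := by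
  unfold rt
  rw [Nat.testBit_mod_two_pow]
  simp [ht]

/-- A vertex of the sample. -/
def g5 (j : Fin 7) : Fin 5 := if h : j.1 < 5 then ⟨j.1, h⟩ else 0

/-- A vertex of the sample from a number. -/
def f5 (j : Nat) : Fin 5 := if h : j < 5 then ⟨j, h⟩ else 0

/-- The code of a coloured sample. -/
def cm {V : Type} (E : V → V → V → Bool) (k : V → Fin 6) (φ : Fin 5 → V) : Nat :=
  mkN (msk E (fun a => φ (g5 a))) (fun j => (k (φ (f5 j))).1)

theorem cm_lt {V : Type} (E : V → V → V → Bool) (k : V → Fin 6) (φ : Fin 5 → V) :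
    cm E k φ < 2 ^ 25 := mkN_lt _ _

theorem cm_col {V : Type} (E : V → V → V → Bool) (k : V → Fin 6) (φ : Fin 5 → V) (j : Fin 5) :
    col (cm E k φ) j.1 = (k (φ j)).1 := by
  rw [cm, col_mkN _ _ j.1 j.2]
  have h : f5 j.1 = j := by
    unfold f5
    rw [dif_pos j.2]
  rw [h]
  exact Nat.mod_eq_of_lt (lt_trans (k (φ j)).2 (by norm_num))

theorem tri_g5 : ∀ t < 10, g5 (f7 (KC.tri t).1) = f5 (KC.tri t).1 ∧
    g5 (f7 (KC.tri t).2.1) = f5 (KC.tri t).2.1 ∧ g5 (f7 (KC.tri t).2.2) = f5 (KC.tri t).2.2 := by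
  decide +kernel

theorem cm_bit {V : Type} (E : V → V → V → Bool) (k : V → Fin 6) (φ : Fin 5 → V) (t : Nat)
    (ht : t < 10) : (cm E k φ).testBit t =
      E (φ (f5 (KC.tri t).1)) (φ (f5 (KC.tri t).2.1)) (φ (f5 (KC.tri t).2.2)) := by
  rw [testBit_rt _ _ ht, cm, rt_mkN, ← testBit_rt _ _ ht, msk_testBit _ _ _ (by omega)]
  obtain ⟨h1, h2, h3⟩ := tri_g5 t ht
  rw [h1, h2, h3]

/-! ## Wrong triples -/

/-- The blocks as a bit table. -/
def blkT : Nat := 27702573799236256762923479430389777543536883275235208976003048134667596357096482394368869436582997410319360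

/-- Block test on numbers. -/
def isB (a b c : Nat) : Bool := blkT.testBit (a + 8 * b + 64 * c)

/-- Missing block triple. -/
def mis3 (a b c : Nat) (e : Bool) : Bool := !e && isB a b c
/-- Bad triple. -/
def bad3 (a b c : Nat) (e : Bool) : Bool := e && (!(isB a b c) && !(Nat.beq a b && Nat.beq b c))
/-- Wrong triple. -/
def wr3 (a b c : Nat) (e : Bool) : Bool := mis3 a b c e || bad3 a b c e

/-- The canonical ordered triples of colours. -/
def tc (a b c : Nat) : Nat :=
  bif Nat.beq a 0 then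
    bif Nat.beq b 0 then (bif Nat.beq c 0 then 0 else bif Nat.beq c 1 then 1 else 6) else
    bif Nat.beq b 1 then (bif Nat.beq c 0 then 2 else bif Nat.beq c 1 then 3 else
      bif Nat.beq c 2 then 4 else bif Nat.beq c 4 then 5 else 6) else 6
  else 6

/-- Type of the first three vertices. -/
def ty3 (N : Nat) : Nat := tc (col N 0) (col N 1) (col N 2)

/-- Type with the edge bit. -/
def tau3 (N : Nat) : Nat := 2 * ty3 N + (N.testBit 0).toNat

/-- Flag of the vertex `3` with three roots. -/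
def fl3 (N : Nat) : Nat := 8 * col N 3 + N / 2 % 8

/-- Flag of the vertex `4` with three roots. -/
def fl4 (N : Nat) : Nat := 8 * col N 4 + N / 16 % 8

/-! ## The certificate -/

/-- The data of the certificate. -/
structure CT where
  T : Tab
  FI : BT
  F1 : Nat
  DM : Nat
  KM : Nat
  ND : Nat
  BC : Nat
  PB : BT
  IM : BT
  A : Nat
  B : Nat
  P : Nat
  M : Nat

namespace CT

variable (C : CT)

/-- Index of a flag with three roots. -/
noncomputable def fi (t f : Nat) : Nat := (C.FI.get t) / 2 ^ (8 * f) % 256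

/-- Index of a flag with one root: colours `a`, `b` and the edge bit. -/
def f1 (a b : Nat) (e : Bool) : Nat := C.F1 / 2 ^ (8 * (16 * a + 2 * b + e.toNat)) % 256

/-- Multiplier of the degree equations. -/
noncomputable def dm (t : Nat) : ℤ := ((C.DM / 2 ^ (96 * t) % 2 ^ 96 : Nat) : ℤ) - C.T.OFF

/-- Multiplier of the wrong degrees. -/
def km (t : Nat) : Nat := C.KM / 2 ^ (96 * t) % 2 ^ 96

/-- Error term of the degree equations. -/
def nd (t : Nat) : Nat := C.ND / 2 ^ (96 * t) % 2 ^ 96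

/-- Constant of the block inequalities. -/
def bc (t : Nat) : Nat := C.BC / 2 ^ (96 * t) % 2 ^ 96

/-- Pair weight of the block inequalities, at the colours `c`, `d`. -/
noncomputable def pb (t c d : Nat) : Nat := C.PB.get (8 * t + c) / 2 ^ (96 * d) % 2 ^ 96

/-- Multiplier of the independence equations. -/
noncomputable def im (N : Nat) : ℤ :=
  ((C.IM.get (128 * ty3 N + 16 * col N 3 + N % 16) / 2 ^ (96 * col N 4) % 2 ^ 96 : Nat) : ℤ) -
    C.T.OFF

/-- Error term of the independence equations. -/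
noncomputable def ni (N : Nat) : Nat :=
  C.IM.get (128 * ty3 N + 16 * col N 3 + N % 16) / 2 ^ (96 * 6) % 2 ^ 96

/-- Squares with three roots. -/
noncomputable def g3 (N : Nat) : ℤ :=
  if ty3 N < 6 ∧ C.fi (tau3 N) (fl3 N) < C.T.nf (tau3 N) ∧
      C.fi (tau3 N) (fl4 N) < C.T.nf (tau3 N) then
    C.T.qi (tau3 N) (C.fi (tau3 N) (fl3 N)) (C.fi (tau3 N) (fl4 N)) else 0

/-- Squares with one root. -/
noncomputable def g1 (N : Nat) : ℤ :=
  if col N 0 = 0 ∧ wr3 (col N 0) (col N 1) (col N 2) (N.testBit 0) = true ∧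
      wr3 (col N 0) (col N 3) (col N 4) (N.testBit 7) = true then
    C.T.qi 12 (C.f1 (col N 1) (col N 2) (N.testBit 0)) (C.f1 (col N 3) (col N 4) (N.testBit 7))
  else 0

/-- Degree equations. -/
noncomputable def gD (N : Nat) : ℤ :=
  if ty3 N < 6 then C.dm (tau3 N) * (7 * ((N.testBit 7).toNat : ℤ) - 2) + C.nd (tau3 N) else 0

/-- Block inequalities. -/
noncomputable def gB (N : Nat) : ℤ :=
  if ty3 N < 6 then (C.bc (tau3 N) : ℤ) -
    C.pb (tau3 N) (col N 3) (col N 4) * ((N.testBit 7).toNat : ℤ) else 0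

/-- Missing degrees. -/
def gK (N : Nat) : ℤ :=
  if ty3 N < 6 then (C.km (tau3 N) : ℤ) *
    ((C.A : ℤ) - C.B * ((mis3 (col N 0) (col N 3) (col N 4) (N.testBit 7)).toNat : ℤ)) else 0

/-- Independence equations. -/
noncomputable def gI (N : Nat) : ℤ := if ty3 N < 6 then 6 * C.im N + C.ni N else 0

/-- The objective. -/
def obj (N : Nat) : ℤ :=
  (C.P : ℤ) * ((mis3 (col N 0) (col N 1) (col N 2) (N.testBit 0)).toNat : ℤ) -
    (C.M : ℤ) * ((bad3 (col N 0) (col N 1) (col N 2) (N.testBit 0)).toNat : ℤ)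

/-- The total. -/
noncomputable def G (N : Nat) : ℤ :=
  C.obj N - (C.g3 N + C.g1 N + C.gD N + C.gB N + C.gK N + C.gI N)

end CT

/-- The block test agrees with the template. -/
theorem isB_D6 : ∀ a b c : Fin 6, isB a.1 b.1 c.1 = D6 a b c := by decide +kernel

end KL
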