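import Pool.Agent.Helper41.KL.Red

set_option autoImplicit false
set_option maxRecDepth 100000

/-!
# Reduction to 470 classes
-/

namespace KL

open KF KC

theorem ckB0 : allB (ckB cB0 0) 1024 = true := by decide +kernel
theorem ckB1 : allB (ckB cB1 4096) 1024 = true := by decide +kernel
theorem ckB2 : allB (ckB cB2 4608) 1024 = true := by decide +kernel
theorem ckB3 : allB (ckB cB3 8704) 1024 = true := by decide +kernel
theorem ckB4 : allB (ckB cB4 16896) 1024 = true := by decide +kernel
theorem ckB5 : allB (ckB cB5 8768) 1024 = true := by decide +kernel
theorem ckB6 : allB (ckB cB6 16960) 1024 = true := by decide +kernel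
theorem ckB7 : allB (ckB cB7 13376) 1024 = true := by decide +kernel
theorem ckB8 : allB (ckB cB8 21568) 1024 = true := by decide +kernel
theorem ckB9 : allB (ckB cB9 18056) 1024 = true := by decide +kernel

end KL
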