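import Pool.Agent.Helper41.KL.RedA
import Pool.Agent.Helper41.KL.RedB

set_option autoImplicit false
set_option maxRecDepth 100000

/-!
# Reduction to 470 classes: the theorem
-/

namespace KL

open KF KC

/-- Admissible coloured masks. -/
def CA (N : Nat) : Prop := N < 2 ^ 25 ∧ (∀ j < 5, col N j < 6) ∧ vio0 (rt N) = false

theorem ckA_all : ∀ c < 6, ∃ T, allB (ckA T c) 1296 = true := by
  intro c hc
  have : c = 0 ∨ c = 1 ∨ c = 2 ∨ c = 3 ∨ c = 4 ∨ c = 5 := by omega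
  rcases this with rfl | rfl | rfl | rfl | rfl | rfl
  · exact ⟨_, ckA0⟩
  · exact ⟨_, ckA1⟩
  · exact ⟨_, ckA2⟩
  · exact ⟨_, ckA3⟩
  · exact ⟨_, ckA4⟩
  · exact ⟨_, ckA5⟩

theorem ckB_all : ∀ p ∈ pats, ∃ T, allB (ckB T p) 1024 = true := by
  intro p hp
  simp only [pats, List.mem_cons, List.not_mem_nil, or_false] at hp
  rcases hp with rfl | rfl | rfl | rfl | rfl | rfl | rfl | rfl | rfl | rfl
  · exact ⟨_, ckB0⟩
  · exact ⟨_, ckB1⟩
  · exact ⟨_, ckB2⟩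
  · exact ⟨_, ckB3⟩
  · exact ⟨_, ckB4⟩
  · exact ⟨_, ckB5⟩
  · exact ⟨_, ckB6⟩
  · exact ⟨_, ckB7⟩
  · exact ⟨_, ckB8⟩
  · exact ⟨_, ckB9⟩

theorem cdn_eq (c4 n : Nat) : cdn c4 n = n % 6 + (8 * (n / 6 % 6) + (64 * (n / 36 % 6) +
    (512 * (n / 216) + 4096 * c4))) := rfl

theorem cdn_of {c0 c1 c2 c3 c4 : Nat} (h0 : c0 < 6) (h1 : c1 < 6) (h2 : c2 < 6) (h3 : c3 < 6) :
    cdn c4 (c0 + 6 * c1 + 36 * c2 + 216 * c3) =
      c0 + 8 * c1 + 64 * c2 + 512 * c3 + 4096 * c4 := by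
  have e0 : (c0 + 6 * c1 + 36 * c2 + 216 * c3) % 6 = c0 := by omega
  have e1 : (c0 + 6 * c1 + 36 * c2 + 216 * c3) / 6 = c1 + 6 * c2 + 36 * c3 := by omega
  have e2 : (c0 + 6 * c1 + 36 * c2 + 216 * c3) / 36 = c2 + 6 * c3 := by omega
  have e3 : (c0 + 6 * c1 + 36 * c2 + 216 * c3) / 216 = c3 := by omega
  have e4 : (c1 + 6 * c2 + 36 * c3) % 6 = c1 := by omega
  have e5 : (c2 + 6 * c3) % 6 = c2 := by omega
  rw [cdn_eq, e0, e1, e2, e3, e4, e5]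
  ring

/-- **Reduction to the classes.** -/
theorem red {N : Nat} (h : CA N) : ∃ j < 470, ∀ G : Nat → ℤ, TT G N = TT G (rep j) := by
  obtain ⟨hN, hc, hv⟩ := h
  have hX : N / 1024 < 32768 := by
    norm_num at hN
    omega
  have h0 := hc 0 (by norm_num)
  have h1 := hc 1 (by norm_num)
  have h2 := hc 2 (by norm_num)
  have h3 := hc 3 (by norm_num)
  have h4 := hc 4 (by norm_num)
  have e := cod _ hX
  rw [col_eq] at h0 h1 h2 h3 h4
  norm_num at h0 h1 h2 h3 h4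
  obtain ⟨T, hT⟩ := ckA_all _ h4
  have hn : N / 1024 % 8 + 6 * (N / 1024 / 8 % 8) + 36 * (N / 1024 / 64 % 8) +
      216 * (N / 1024 / 512 % 8) < 1296 := by omega
  have hcd : cdn (N / 1024 / 4096 % 8) (N / 1024 % 8 + 6 * (N / 1024 / 8 % 8) +
      36 * (N / 1024 / 64 % 8) + 216 * (N / 1024 / 512 % 8)) = N / 1024 := by
    rw [cdn_of h0 h1 h2 h3]
    exact e.symm
  obtain ⟨w, hw⟩ := ckA_spec (allB_iff hT _ hn)
  rw [hcd] at hw
  have hX2 : 1024 * (N / 1024) < 2 ^ 25 := by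
    norm_num
    omega
  have hcol := runK_col 21 w N (1024 * (N / 1024)) hN hX2 (by omega)
  rw [← hcol] at hw
  obtain ⟨i1, i2, i3⟩ := runK_inv 21 w N hN
  have hv1 := i3 hv
  generalize runK 21 w N = N1 at *
  obtain ⟨T2, hT2⟩ := ckB_all _ hw
  have hr : rt N1 < 1024 := rt_lt N1
  obtain ⟨w2, j, hj, hj2⟩ := ckB_spec (allB_iff hT2 _ hr) hv1
  have e1 : rt N1 + 1024 * (N1 / 1024) = N1 := by
    unfold rt
    norm_num
    omega
  rw [e1] at hj2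
  obtain ⟨-, k2, -⟩ := runK_inv 21 w2 N1 i1
  refine ⟨j, hj, fun G => ?_⟩
  rw [← hj2, k2 G, i2 G]

theorem cm_CA {V : Type} {E : V → V → V → Bool} (hE : K4m E) (k : V → Fin 6)
    (φ : Fin 5 → V) : CA (cm E k φ) := by
  refine ⟨cm_lt E k φ, fun j hj => ?_, ?_⟩
  · have := cm_col E k φ ⟨j, hj⟩
    simp only at this
    rw [this]
    exact (k (φ ⟨j, hj⟩)).2
  · rw [cm, rt_mkN]
    exact vio0_rt (adm_msk hE _)

end KL
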