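import Pool.Agent.Helper41.KL.EvT
import Pool.Agent.Helper41.KL.Red2

set_option autoImplicit false
set_option maxRecDepth 100000

/-!
# Kernel evaluation of the class sums
-/

namespace KL

open KF KC

/-- A field of 96 bits. -/
def f96 (X t : Nat) : Nat :=
  Nat.land (Nat.shiftRight X (Nat.mul 96 t)) 79228162514264337593543950335

theorem f96_eq (X t : Nat) : f96 X t = X / 2 ^ (96 * t) % 2 ^ 96 := by
  unfold f96
  rw [shr_eq]
  exact Nat.and_two_pow_sub_one_eq_mod _ 96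

theorem f96_lt (X t : Nat) : f96 X t < 2 ^ 96 := by
  rw [f96_eq]
  exact Nat.mod_lt _ (by norm_num)

/-- A field of 8 bits at a given position. -/
def f8 (X s : Nat) : Nat := Nat.land (Nat.shiftRight X s) 255

theorem f8_eq (X s : Nat) : f8 X s = X / 2 ^ s % 256 := by
  unfold f8
  rw [shr_eq]
  exact Nat.and_two_pow_sub_one_eq_mod _ 8

/-- Sum over a list, for the kernel. -/
noncomputable def lsK (f : Nat → Nat) (l : List Nat) (acc : Nat) : Nat :=
  List.rec (motive := fun _ => Nat → Nat) (fun acc => acc)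
    (fun a _ ih acc => fc (Nat.add acc (f a)) ih) l acc

theorem lsK_eq (f : Nat → Nat) : ∀ (l : List Nat) (acc : Nat),
    lsK f l acc = acc + (l.map f).sum
  | [], acc => rfl
  | a :: l, acc => by
    change fc (Nat.add acc (f a)) (lsK f l) = _
    rw [fc_eq, lsK_eq f l, List.map_cons, List.sum_cons, Nat.add_eq]
    ring

/-- Case distinction on a bit, for the kernel. -/
noncomputable def b2 (b x y : Nat) : Nat :=
  Nat.rec (motive := fun _ => Nat) y (fun _ _ => x) b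

theorem b2_eq (b x y : Nat) : b2 b x y = if b = 0 then y else x := by
  cases b <;> rfl

/-- One automorphism: the squares with three roots and the independence equations. -/
noncomputable def vA (QT IM : BT) (rb ft im0 s3 s4 b3 b4 a : Nat) : Nat :=
  fc (Nat.land (Nat.shiftRight a s3) 7) fun x =>
  fc (Nat.land (Nat.shiftRight a s4) 7) fun y =>
  fc (IM.get (Nat.add im0 (Nat.mul 16 x))) fun u =>
  fc (f8 ft (Nat.add b4 (Nat.mul 64 y))) fun j =>
  Nat.add (f96 (QT.get (Nat.add rb (f8 ft (Nat.add b3 (Nat.mul 64 x))))) j)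
    (Nat.add (Nat.mul 6 (f96 u y)) (f96 u 6))

/-- One automorphism: the squares with one root. -/
noncomputable def vO (QT : BT) (rb F s1 s2 s3 s4 e b a : Nat) : Nat :=
  fc (f8 F (Nat.add (Nat.mul 128 (Nat.land (Nat.shiftRight a s3) 7))
    (Nat.add (Nat.mul 16 (Nat.land (Nat.shiftRight a s4) 7)) b))) fun j =>
  f96 (QT.get (Nat.add rb (f8 F (Nat.add (Nat.mul 128 (Nat.land (Nat.shiftRight a s1) 7))
    (Nat.add (Nat.mul 16 (Nat.land (Nat.shiftRight a s2) 7)) e))))) j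

/-- The constant. -/
def BIG : Nat := 2 ^ 130

/-- The kernel version of the sum over the automorphisms. -/
noncomputable def wK (FI QT IM : BT) (RB F1 DM KM ND A B P M OFF : Nat) (N : Nat) : Nat :=
  fc (Nat.land (Nat.shiftRight N 10) 511) fun u =>
  fc (Nat.land N 1) fun e =>
  fc (Nat.shiftRight N 19) fun v =>
  fc (Nat.land u 7) fun c0 =>
  fc (Nat.land (Nat.shiftRight N 7) 1) fun b =>
  fc (Nat.land (Nat.shiftRight WRT (Nat.add (Nat.mul 4 u) (Nat.mul 2 e))) 3) fun w =>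
  fc (Nat.land (Nat.shiftRight WRT
    (Nat.add (Nat.mul 4 (Nat.add c0 (Nat.mul 8 v))) (Nat.mul 2 b))) 3) fun w' =>
  fc (Nat.mul 3 (Nat.land v 7)) fun s3 =>
  fc (Nat.mul 3 (Nat.shiftRight v 3)) fun s4 =>
  selT.get u fun t n l =>
  fc (Nat.add (Nat.mul 2 t) e) fun τ =>
  fc (f96 DM τ) fun dm =>
  fc (f96 KM τ) fun km =>
  fc (ent RB 16 65535 τ) fun rb =>
  fc (FI.get τ) fun ft =>
  fc (Nat.add (Nat.mul 128 t) (Nat.land N 15)) fun im0 =>
  fc (Nat.mul 8 (Nat.land (Nat.shiftRight N 1) 7)) fun b3 =>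
  fc (Nat.mul 8 (Nat.land (Nat.shiftRight N 4) 7)) fun b4 =>
  fc (lsK (vA QT IM rb ft im0 s3 s4 b3 b4) l
    (Nat.mul n (Nat.add (b2 b (Nat.mul 5 dm) (Nat.mul 2 OFF)) (Nat.add (f96 ND τ)
      (Nat.mul km A))))) fun neg =>
  fc (Nat.mul n (Nat.add (Nat.mul 7 OFF) (Nat.add (b2 b (Nat.mul 5 OFF) (Nat.mul 2 dm))
    (b2 (Nat.land w' 1) (Nat.mul km B) 0)))) fun pos =>
  fc (Nat.add pos (b2 (Nat.land w 1) (Nat.mul 60 P) 0)) fun pos =>
  fc (Nat.add neg (b2 (Nat.land w 2) (Nat.mul 60 M) 0)) fun neg =>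
  b2 w (b2 w' (Nat.sub (Nat.add BIG (Nat.add pos (Nat.mul 10 OFF)))
      (zerT.get c0 fun _ _ l =>
        fc (Nat.mul 3 (Nat.land (Nat.shiftRight u 3) 7)) fun s1 =>
        fc (Nat.mul 3 (Nat.shiftRight u 6)) fun s2 =>
        fc (ent RB 16 65535 12) fun rb =>
        lsK (vO QT rb F1 s1 s2 s3 s4 (Nat.mul 8 e) (Nat.mul 8 b)) l neg))
    (Nat.sub (Nat.add BIG pos) neg)) (Nat.sub (Nat.add BIG pos) neg)

end KL
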