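import Pool.Agent.Helper41.KL.Val

set_option autoImplicit false
set_option maxRecDepth 100000

/-!
# The finite check
-/

namespace KL

open KF KC WT

/-- Letters of a tree. -/
def l4 : WT → Bool
  | .E => true
  | .B i c s => Nat.blt i 4 && (l4 c && l4 s)
  | .S i c s => Nat.blt i 4 && (l4 c && l4 s)

/-- Sum over the tree, for the kernel. -/
noncomputable def sumC (g : Nat → Nat) (t : WT) : Nat → Nat → Nat :=
  WT.rec (motive := fun _ => Nat → Nat → Nat)
    (fun _ acc => acc)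
    (fun i _ _ ic is m acc => is m (fc (tCK i m) (fun m' => fc (Nat.add acc (g m')) (ic m'))))
    (fun i _ _ ic is m acc => is m (fc (tCK i m) (fun m' => ic m' acc))) t

theorem awC_append (W : List Nat) (i N : Nat) : awC (W ++ [i]) N = tC i (awC W N) := by
  induction W generalizing N with
  | nil => rfl
  | cons j l ih => exact ih (tC j N)

theorem sumC_eq (g : Nat → Nat) {N : Nat} (hN : N < 2 ^ 25) : ∀ (t : WT) (W : List Nat)
    (acc : Nat), l4 t = true →
    sumC g t (awC W N) acc = acc + ((words t W).map (fun U => g (awC U N))).sum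
  | .E, W, acc, _ => rfl
  | .B i c s, W, acc, h => by
    rw [l4, Bool.and_eq_true, Bool.and_eq_true, Nat.blt_eq] at h
    obtain ⟨h1, h2, h3⟩ := h
    change sumC g s (awC W N) (fc (tCK i (awC W N)) (fun m' => fc (Nat.add acc (g m'))
      (sumC g c m'))) = _
    rw [sumC_eq g hN s W _ h3, fc_eq, fc_eq, tCK_eq h1 (awC_lt hN W), ← awC_append,
      sumC_eq g hN c (W ++ [i]) _ h2]
    simp only [words, List.map_cons, List.map_append, List.sum_cons, List.sum_append,
      Nat.add_eq]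
    ring
  | .S i c s, W, acc, h => by
    rw [l4, Bool.and_eq_true, Bool.and_eq_true, Nat.blt_eq] at h
    obtain ⟨h1, h2, h3⟩ := h
    change sumC g s (awC W N) (fc (tCK i (awC W N)) (fun m' => sumC g c m' acc)) = _
    rw [sumC_eq g hN s W _ h3, fc_eq, tCK_eq h1 (awC_lt hN W), ← awC_append,
      sumC_eq g hN c (W ++ [i]) _ h2]
    simp only [words, List.map_append, List.sum_append]
    ring

theorem treeS_l4 : l4 treeS = true := by decide +kernel

/-- The check of a class. -/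
noncomputable def ckR (FI QT IM : BT) (RB F1 DM KM ND A B P M OFF j : Nat) : Bool :=
  fc (rep j) fun N =>
  Nat.ble (Nat.mul 120 BIG) (sumC (wK FI QT IM RB F1 DM KM ND A B P M OFF) treeS N
    (wK FI QT IM RB F1 DM KM ND A B P M OFF N))

/-- The check of the classes `lo ≤ j < lo + n`. -/
noncomputable def ckC (FI QT IM : BT) (RB F1 DM KM ND A B P M OFF lo n : Nat) : Bool :=
  allB (fun k => ckR FI QT IM RB F1 DM KM ND A B P M OFF (Nat.add lo k)) n

theorem ckC_spec {FI QT IM : BT} {RB F1 DM KM ND A B P M OFF lo n : Nat}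
    (h : ckC FI QT IM RB F1 DM KM ND A B P M OFF lo n = true) (j : Nat) (h1 : lo ≤ j)
    (h2 : j < lo + n) : ckR FI QT IM RB F1 DM KM ND A B P M OFF j = true := by
  have := allB_iff h (j - lo) (by omega)
  simp only [Nat.add_eq] at this
  rwa [show lo + (j - lo) = j by omega] at this

theorem rep_ck : allB (fun j => Nat.blt (rep j) 33554432 &&
    (Nat.blt (Nat.land (Nat.shiftRight (rep j) 10) 7) 6 &&
    (Nat.blt (Nat.land (Nat.shiftRight (rep j) 13) 7) 6 &&
    (Nat.blt (Nat.land (Nat.shiftRight (rep j) 16) 7) 6 &&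
    (Nat.blt (Nat.land (Nat.shiftRight (rep j) 19) 7) 6 &&
    (Nat.blt (Nat.land (Nat.shiftRight (rep j) 22) 7) 6)))))) 470 = true := by
  decide +kernel

theorem rep_lt {j : Nat} (hj : j < 470) : rep j < 2 ^ 25 ∧ ∀ i < 5, col (rep j) i < 6 := by
  have h := allB_iff rep_ck j hj
  simp only [Bool.and_eq_true, Nat.blt_eq, land7, shr_eq] at h
  obtain ⟨h0, h1, h2, h3, h4, h5⟩ := h
  refine ⟨by norm_num; exact h0, five ?_ ?_ ?_ ?_ ?_⟩
  · exact h1
  · exact h2
  · exact h3
  · exact h4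
  · exact h5

/-- All columns of all arrangements are colours. -/
theorem col_awC_lt {N : Nat} (hc : ∀ j < 5, col N j < 6) {W : List Nat} (h : w4 W = true) :
    ∀ j < 5, col (awC W N) j < 6 := fun j hj => by
  rw [col_awC W N h j hj]
  exact hc _ (vwn_lt W h j hj)

theorem ckR_spec {C : CT} {X : Nat} (hC : Fit C X) {j : Nat} (hj : j < 470)
    (h : ckR C.FI C.T.QT C.IM X C.F1 C.DM C.KM C.ND C.A C.B C.P C.M C.T.OFF j = true) :
    0 ≤ TT C.G (rep j) := by
  obtain ⟨hN, hc⟩ := rep_lt hj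
  unfold ckR at h
  rw [fc_eq] at h
  have h1 := Nat.le_of_ble_eq_true h
  have e := sumC_eq (wK C.FI C.T.QT C.IM X C.F1 C.DM C.KM C.ND C.A C.B C.P C.M C.T.OFF) hN
    treeS [] (wK C.FI C.T.QT C.IM X C.F1 C.DM C.KM C.ND C.A C.B C.P C.M C.T.OFF (rep j))
    treeS_l4
  rw [awC] at e
  rw [e] at h1
  have e2 : wK C.FI C.T.QT C.IM X C.F1 C.DM C.KM C.ND C.A C.B C.P C.M C.T.OFF (rep j) +
      ((words treeS []).map fun U => wK C.FI C.T.QT C.IM X C.F1 C.DM C.KM C.ND C.A C.B
        C.P C.M C.T.OFF (awC U (rep j))).sum =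
      (P5.map fun U => wK C.FI C.T.QT C.IM X C.F1 C.DM C.KM C.ND C.A C.B C.P C.M C.T.OFF
        (awC U (rep j))).sum := by
    unfold P5 tr
    rw [List.map_cons, List.sum_cons, awC]
  rw [e2] at h1
  have e3 : (((P5.map fun U => wK C.FI C.T.QT C.IM X C.F1 C.DM C.KM C.ND C.A C.B C.P C.M
      C.T.OFF (awC U (rep j))).sum : Nat) : ℤ) = 120 * BIG + TT C.G (rep j) := by
    have e4 : ∀ U ∈ P5, ((wK C.FI C.T.QT C.IM X C.F1 C.DM C.KM C.ND C.A C.B C.P C.M
        C.T.OFF (awC U (rep j)) : Nat) : ℤ) = BIG + sA C.G (awC U (rep j)) := fun U hU =>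
      wK_int (awC_lt hN U) (col_awC_lt hc (P5_w4 U hU)) hC
    rw [Nat.cast_list_sum, List.map_map]
    have e5 : P5.map ((Nat.cast : Nat → ℤ) ∘ fun U => wK C.FI C.T.QT C.IM X C.F1 C.DM
        C.KM C.ND C.A C.B C.P C.M C.T.OFF (awC U (rep j))) =
        P5.map fun U => (BIG : ℤ) + sA C.G (awC U (rep j)) :=
      List.map_congr_left fun U hU => e4 U hU
    rw [e5, List.sum_map_add, List.map_const', List.sum_replicate, lenP5, nsmul_eq_mul]
    unfold TT
    norm_num
  have h2 : ((Nat.mul 120 BIG : Nat) : ℤ) ≤ 120 * BIG + TT C.G (rep j) := by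
    rw [← e3]
    exact_mod_cast h1
  rw [Nat.mul_eq] at h2
  push_cast at h2
  linarith

theorem TT_nonneg {C : CT} {X : Nat} (hC : Fit C X) (h : ∀ j < 470, ckR C.FI C.T.QT C.IM X C.F1 C.DM
    C.KM C.ND C.A C.B C.P C.M C.T.OFF j = true) {N : Nat} (hN : CA N) : 0 ≤ TT C.G N := by
  obtain ⟨j, hj, e⟩ := red hN
  rw [e]
  exact ckR_spec hC hj (h j hj)

/-- The maps of the automorphisms. -/
def AL : List (Fin 6 → Fin 6) := AN.map acF

/-- **The finite check gives the inequality.** -/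
theorem fin {C : CT} {X : Nat} (hC : Fit C X) (h : ∀ j < 470, ckR C.FI C.T.QT C.IM X C.F1 C.DM
    C.KM C.ND C.A C.B C.P C.M C.T.OFF j = true) {V : Type} [Fintype V]
    {E : V → V → V → Bool} (hE : K4m E) {w : V → ℝ} (hw : Wt w) (k : V → Fin 6) :
    0 ≤ (AL.map fun a => Ev 5 w (fun φ => ((C.G (cm E (fun v => a (k v)) φ) : ℤ) : ℝ))).sum := by
  have e := Ev_TT hE hw k C.G
  have h1 : 0 ≤ Ev 5 w (fun φ => ((TT C.G (cm E k φ) : ℤ) : ℝ)) := by
    refine Ev_nonneg 5 w hw.nn fun φ => ?_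
    exact_mod_cast TT_nonneg hC h (cm_CA hE k φ)
  rw [e] at h1
  unfold AL
  rw [List.map_map]
  exact (mul_nonneg_iff_of_pos_left (by norm_num)).1 h1

theorem AL_ne : AL ≠ [] := by
  unfold AL
  rw [ne_eq, List.map_eq_nil_iff]
  decide

theorem AL_D6 : ∀ a ∈ AL, ∀ x y z : Fin 6, D6 (a x) (a y) (a z) = D6 x y z := by
  intro a ha x y z
  obtain ⟨b, hb, rfl⟩ := List.mem_map.1 ha
  exact acF_D6 b hb x y z

theorem AL_inj : ∀ a ∈ AL, Function.Injective a := by
  intro a ha x y hxy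
  obtain ⟨b, hb, rfl⟩ := List.mem_map.1 ha
  exact acF_inj b hb x y hxy

end KL
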