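import Pool.Agent.Helper41.KL.RedT

set_option autoImplicit false
set_option maxRecDepth 100000

/-!
# Kernel versions of the actions
-/

namespace KL

open KF KC

theorem land7 (x : Nat) : Nat.land x 7 = x % 8 := Nat.and_two_pow_sub_one_eq_mod x 3
theorem land1023 (x : Nat) : Nat.land x 1023 = x % 1024 := Nat.and_two_pow_sub_one_eq_mod x 10
theorem shr_eq (x k : Nat) : Nat.shiftRight x k = x / 2 ^ k := Nat.shiftRight_eq_div_pow x k
theorem shl_eq (x k : Nat) : Nat.shiftLeft x k = x * 2 ^ k := Nat.shiftLeft_eq x k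

/-- Field of a colour code. -/
theorem col_eq (N j : Nat) : col N j = N / 1024 / 8 ^ j % 8 := by
  unfold col
  rw [Nat.pow_add, ← Nat.div_div_eq_div_mul, show 2 ^ (3 * j) = 8 ^ j from by
    rw [Nat.pow_mul]]

/-- Swap of two colours in the colour code, for the kernel. -/
noncomputable def swK (i X : Nat) : Nat :=
  fc (Nat.land (Nat.shiftRight X (Nat.mul 3 i)) 7) fun a =>
  fc (Nat.land (Nat.shiftRight X (Nat.add (Nat.mul 3 i) 3)) 7) fun b =>
  Nat.sub (Nat.add X (Nat.shiftLeft (Nat.add b (Nat.mul 8 a)) (Nat.mul 3 i)))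
    (Nat.shiftLeft (Nat.add a (Nat.mul 8 b)) (Nat.mul 3 i))

/-- The swap, for the kernel. -/
noncomputable def tCK (i N : Nat) : Nat :=
  fc (Nat.shiftRight N 10) fun X => fc (swK i X) fun Y =>
  Nat.add (tau i (Nat.land N 1023)) (Nat.shiftLeft Y 10)

theorem tau_lt : ∀ i < 4, ∀ r < 1024, tau i r < 1024 := by decide +kernel

theorem swK_eq (i X : Nat) : swK i X = X + (X / 2 ^ (3 * i + 3) % 8 +
    8 * (X / 2 ^ (3 * i) % 8)) * 2 ^ (3 * i) - (X / 2 ^ (3 * i) % 8 +
    8 * (X / 2 ^ (3 * i + 3) % 8)) * 2 ^ (3 * i) := by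
  unfold swK
  simp only [fc_eq, land7, shr_eq, shl_eq, Nat.add_eq, Nat.mul_eq, Nat.sub_eq]

theorem cod (X : Nat) (hX : X < 32768) : X = X % 8 + 8 * (X / 8 % 8) + 64 * (X / 64 % 8) +
    512 * (X / 512 % 8) + 4096 * (X / 4096 % 8) := by omega

theorem sw_all {P : Nat → Prop} (h0 : P 0) (h1 : P 1) (h2 : P 2) (h3 : P 3) :
    ∀ i < 4, P i := by
  intro j hj
  have : j = 0 ∨ j = 1 ∨ j = 2 ∨ j = 3 := by omega
  rcases this with rfl | rfl | rfl | rfl <;> assumption

theorem tCK_eq {i N : Nat} (hi : i < 4) (hN : N < 2 ^ 25) : tCK i N = tC i N := by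
  have ht : tau i (rt N) < 1024 := tau_lt i hi _ (rt_lt N)
  have hX : N / 1024 < 32768 := by
    norm_num at hN
    omega
  have h1 : tCK i N = tau i (rt N) + swK i (N / 1024) * 1024 := by
    unfold tCK
    simp only [fc_eq, land1023, shr_eq, shl_eq, Nat.add_eq]
    rfl
  have h2 : tC i N = tau i (rt N) % 1024 + 1024 * (col N (sw i 0) + 8 * col N (sw i 1) +
      64 * col N (sw i 2) + 512 * col N (sw i 3) + 4096 * col N (sw i 4)) := by
    unfold tC mkN
    simp only [Nat.mod_eq_of_lt (col_lt N _)]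
  rw [h1, h2, Nat.mod_eq_of_lt ht]
  simp only [col_eq, swK_eq]
  generalize N / 1024 = X at hX
  generalize tau i (rt N) = T
  have hc := cod X hX
  have : i = 0 ∨ i = 1 ∨ i = 2 ∨ i = 3 := by omega
  rcases this with rfl | rfl | rfl | rfl
  · norm_num [sw]
    omega
  · norm_num [sw]
    omega
  · norm_num [sw]
    omega
  · norm_num [sw]
    omega

/-- A map of colours, for the kernel. -/
def acK (a x : Nat) : Nat := Nat.land (Nat.shiftRight a (Nat.mul 3 x)) 7

theorem acK_eq (a x : Nat) : acK a x = ac a x := by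
  unfold acK ac
  rw [land7, shr_eq, Nat.mul_eq, Nat.pow_mul]

/-- A map of colours on the colour code, for the kernel. -/
def apK (a X : Nat) : Nat :=
  Nat.add (acK a (Nat.land X 7)) (Nat.add (Nat.shiftLeft (acK a (Nat.land (Nat.shiftRight X 3) 7)) 3)
    (Nat.add (Nat.shiftLeft (acK a (Nat.land (Nat.shiftRight X 6) 7)) 6)
    (Nat.add (Nat.shiftLeft (acK a (Nat.land (Nat.shiftRight X 9) 7)) 9)
      (Nat.shiftLeft (acK a (Nat.land (Nat.shiftRight X 12) 7)) 12))))

/-- A map of colours, for the kernel. -/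
noncomputable def aCK (a N : Nat) : Nat :=
  fc (Nat.shiftRight N 10) fun X => fc (apK a X) fun Y =>
  Nat.add (Nat.land N 1023) (Nat.shiftLeft Y 10)

theorem aCK_eq (a N : Nat) : aCK a N = aC a N := by
  have h1 : aCK a N = N % 1024 + apK a (N / 1024) * 1024 := by
    unfold aCK
    simp only [fc_eq, land1023, shr_eq, shl_eq, Nat.add_eq]
    rfl
  have h2 : aC a N = N % 1024 % 1024 + 1024 * (ac a (col N 0) + 8 * ac a (col N 1) +
      64 * ac a (col N 2) + 512 * ac a (col N 3) + 4096 * ac a (col N 4)) := by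
    unfold aC mkN
    simp only [Nat.mod_eq_of_lt (ac_lt a _)]
    rfl
  rw [h1, h2]
  simp only [col_eq, apK, acK_eq, land7, shr_eq, shl_eq, Nat.add_eq]
  norm_num
  ring


/-! ## Moves -/

/-- A move, for the kernel: letters `0 .. 3` are swaps, `4` and `5` automorphisms. -/
noncomputable def mvK (l N : Nat) : Nat :=
  Bool.rec (motive := fun _ => Nat) (Bool.rec (motive := fun _ => Nat) (aCK 16398865 N)
    (aCK 16405704 N) (Nat.beq l 4)) (tCK l N) (Nat.blt l 4)

theorem mvK_cases (l N : Nat) : (l < 4 ∧ mvK l N = tCK l N) ∨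
    ∃ b ∈ GN, mvK l N = aCK b N := by
  unfold mvK
  by_cases h : l < 4
  · left
    have e : Nat.blt l 4 = true := by rw [Nat.blt_eq]; exact h
    rw [e]
    exact ⟨h, rfl⟩
  · right
    have e : Nat.blt l 4 = false := by
      rw [Bool.eq_false_iff, ne_eq, Nat.blt_eq]
      exact h
    rw [e]
    cases h4 : Nat.beq l 4
    · exact ⟨16398865, by decide, rfl⟩
    · exact ⟨16405704, by decide, rfl⟩

theorem mvK_lt {l N : Nat} (hN : N < 2 ^ 25) : mvK l N < 2 ^ 25 := by
  rcases mvK_cases l N with ⟨h, e⟩ | ⟨b, _, e⟩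
  · rw [e, tCK_eq h hN]
    exact tC_lt _ _
  · rw [e, aCK_eq]
    exact aC_lt _ _

theorem mvK_TT (G : Nat → ℤ) {l N : Nat} (hN : N < 2 ^ 25) : TT G (mvK l N) = TT G N := by
  rcases mvK_cases l N with ⟨h, e⟩ | ⟨b, hb, e⟩
  · rw [e, tCK_eq h hN, TT_tC G h hN]
  · rw [e, aCK_eq, TT_aC G hb]

theorem mkN_col (m : Nat) (c : Nat → Nat) : mkN m c / 1024 = c 0 % 8 + 8 * (c 1 % 8) +
    64 * (c 2 % 8) + 512 * (c 3 % 8) + 4096 * (c 4 % 8) := by
  unfold mkN
  omega

theorem mvK_col {l N N' : Nat} (hN : N < 2 ^ 25) (hN' : N' < 2 ^ 25)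
    (h : N / 1024 = N' / 1024) : mvK l N / 1024 = mvK l N' / 1024 := by
  have hc : ∀ j, col N j = col N' j := fun j => by rw [col_eq, col_eq, h]
  unfold mvK
  cases h4 : Nat.blt l 4
  · cases h5 : Nat.beq l 4
    · change aCK 16398865 N / 1024 = aCK 16398865 N' / 1024
      rw [aCK_eq, aCK_eq, aC, aC, mkN_col, mkN_col]
      simp only [hc]
    · change aCK 16405704 N / 1024 = aCK 16405704 N' / 1024
      rw [aCK_eq, aCK_eq, aC, aC, mkN_col, mkN_col]
      simp only [hc]
  · change tCK l N / 1024 = tCK l N' / 1024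
    rw [Nat.blt_eq] at h4
    rw [tCK_eq h4 hN, tCK_eq h4 hN', tC, tC, mkN_col, mkN_col]
    simp only [hc]

theorem vio0_tau : ∀ i < 4, ∀ r < 1024, vio0 r = false → vio0 (tau i r % 1024) = false := by
  decide +kernel

theorem mvK_vio {l N : Nat} (hN : N < 2 ^ 25) (h : vio0 (rt N) = false) :
    vio0 (rt (mvK l N)) = false := by
  rcases mvK_cases l N with ⟨h4, e⟩ | ⟨b, _, e⟩
  · rw [e, tCK_eq h4 hN, rt_tC]
    exact vio0_tau l h4 _ (rt_lt N) h
  · rw [e, aCK_eq, rt_aC]
    exact h

/-- A packed word of moves. -/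
noncomputable def runK (n : Nat) : Nat → Nat → Nat :=
  Nat.rec (motive := fun _ => Nat → Nat → Nat) (fun _ N => N)
    (fun _ ih w N => Bool.rec (motive := fun _ => Nat)
      (fc (Nat.shiftRight w 3) fun w' => fc (mvK (Nat.sub (Nat.land w 7) 1) N) fun N' => ih w' N')
      N (Nat.beq w 0)) n

theorem runK_zero (w N : Nat) : runK 0 w N = N := rfl

theorem runK_succ (n w N : Nat) : runK (n + 1) w N = N ∨
    runK (n + 1) w N = runK n (Nat.shiftRight w 3) (mvK (Nat.sub (Nat.land w 7) 1) N) := by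
  change Bool.rec (motive := fun _ => Nat)
      (fc (Nat.shiftRight w 3) fun w' => fc (mvK (Nat.sub (Nat.land w 7) 1) N) fun N' =>
        runK n w' N') N (Nat.beq w 0) = N ∨ Bool.rec (motive := fun _ => Nat)
      (fc (Nat.shiftRight w 3) fun w' => fc (mvK (Nat.sub (Nat.land w 7) 1) N) fun N' =>
        runK n w' N') N (Nat.beq w 0) = _
  cases h : Nat.beq w 0
  · right
    simp only [fc_eq]
  · left
    rfl

theorem runK_inv : ∀ (n w N : Nat), N < 2 ^ 25 → runK n w N < 2 ^ 25 ∧
    (∀ G : Nat → ℤ, TT G (runK n w N) = TT G N) ∧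
    (vio0 (rt N) = false → vio0 (rt (runK n w N)) = false)
  | 0, w, N, h => ⟨h, fun _ => rfl, fun h => h⟩
  | n + 1, w, N, h => by
    rcases runK_succ n w N with e | e
    · rw [e]
      exact ⟨h, fun _ => rfl, fun h => h⟩
    · rw [e]
      obtain ⟨h1, h2, h3⟩ := runK_inv n (Nat.shiftRight w 3) (mvK (Nat.sub (Nat.land w 7) 1) N)
        (mvK_lt h)
      exact ⟨h1, fun G => (h2 G).trans (mvK_TT G h), fun hv => h3 (mvK_vio h hv)⟩

theorem runK_col : ∀ (n w N N' : Nat), N < 2 ^ 25 → N' < 2 ^ 25 → N / 1024 = N' / 1024 →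
    runK n w N / 1024 = runK n w N' / 1024
  | 0, _, _, _, _, _, h => h
  | n + 1, w, N, N', h1, h2, h => by
    have e1 : ∀ M, runK (n + 1) w M = Bool.rec (motive := fun _ => Nat)
        (runK n (Nat.shiftRight w 3) (mvK (Nat.sub (Nat.land w 7) 1) M)) M (Nat.beq w 0) := by
      intro M
      change Bool.rec (motive := fun _ => Nat)
        (fc (Nat.shiftRight w 3) fun w' => fc (mvK (Nat.sub (Nat.land w 7) 1) M) fun N' =>
          runK n w' N') M (Nat.beq w 0) = _
      simp only [fc_eq]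
    rw [e1, e1]
    cases Nat.beq w 0
    · exact runK_col n _ _ _ (mvK_lt h1) (mvK_lt h2) (mvK_col h1 h2 h)
    · exact h

/-- Check for all numbers below a bound, for the kernel. -/
noncomputable def allB (p : Nat → Bool) (n : Nat) : Bool :=
  Nat.rec (motive := fun _ => Bool) true
    (fun k ih => Bool.rec (motive := fun _ => Bool) false ih (p k)) n

theorem allB_iff {p : Nat → Bool} : ∀ {n : Nat}, allB p n = true → ∀ k < n, p k = true
  | 0, _, k, hk => absurd hk (Nat.not_lt_zero k)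
  | n + 1, h, k, hk => by
    change Bool.rec (motive := fun _ => Bool) false (allB p n) (p n) = true at h
    cases hp : p n
    · rw [hp] at h
      exact absurd h (by simp)
    · rw [hp] at h
      rcases Nat.lt_succ_iff_lt_or_eq.1 hk with h1 | h1
      · exact allB_iff h k h1
      · rw [h1]
        exact hp

/-! ## Colour codes -/

/-- Membership, for the kernel. -/
noncomputable def memK (x : Nat) (l : List Nat) : Bool :=
  List.rec (motive := fun _ => Bool) false
    (fun a _ ih => Bool.rec (motive := fun _ => Bool) ih true (Nat.beq x a)) l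

theorem memK_iff {x : Nat} : ∀ {l : List Nat}, memK x l = true → x ∈ l
  | [], h => absurd h (by simp [memK])
  | a :: l, h => by
    change Bool.rec (motive := fun _ => Bool) (memK x l) true (Nat.beq x a) = true at h
    cases hb : Nat.beq x a
    · rw [hb] at h
      exact List.mem_cons_of_mem _ (memK_iff h)
    · rw [Nat.eq_of_beq_eq_true hb]
      exact List.mem_cons_self

/-- Number `n` of the colour codes with `c4` given. -/
def cdn (c4 n : Nat) : Nat :=
  Nat.add (Nat.mod n 6) (Nat.add (Nat.mul 8 (Nat.mod (Nat.div n 6) 6))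
    (Nat.add (Nat.mul 64 (Nat.mod (Nat.div n 36) 6))
    (Nat.add (Nat.mul 512 (Nat.div n 216)) (Nat.mul 4096 c4))))

/-- The check of a colour code. -/
noncomputable def ckA (T c4 n : Nat) : Bool :=
  fc (Nat.land (Nat.shiftRight T (Nat.mul 63 n)) 9223372036854775807) fun w =>
  fc (Nat.shiftLeft (cdn c4 n) 10) fun N =>
  fc (Nat.shiftRight (runK 21 w N) 10) fun p => memK p pats

/-- The classes. -/
def rep (j : Nat) : Nat := Nat.land (Nat.shiftRight repN (Nat.mul 25 j)) 33554431

/-- The check of a mask with a colour pattern. -/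
noncomputable def ckB (T p r : Nat) : Bool :=
  Bool.rec (motive := fun _ => Bool)
    (fc (Nat.land (Nat.shiftRight T (Nat.mul 72 r)) 4722366482869645213695) fun e =>
      fc (Nat.land e 511) fun j =>
      Bool.rec (motive := fun _ => Bool) false
        (Nat.beq (runK 21 (Nat.shiftRight e 9) (Nat.add r (Nat.mul 1024 p))) (rep j))
        (Nat.blt j 470)) true (vio0 r)

theorem ckA_spec {T c4 n : Nat} (h : ckA T c4 n = true) :
    ∃ w, runK 21 w (1024 * cdn c4 n) / 1024 ∈ pats := by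
  unfold ckA at h
  simp only [fc_eq, shr_eq, shl_eq] at h
  rw [show (2 : Nat) ^ 10 = 1024 by norm_num, Nat.mul_comm (cdn c4 n) 1024] at h
  exact ⟨_, memK_iff h⟩

theorem ckB_spec {T p r : Nat} (h : ckB T p r = true) (hv : vio0 r = false) :
    ∃ w, ∃ j < 470, runK 21 w (r + 1024 * p) = rep j := by
  unfold ckB at h
  rw [hv] at h
  simp only [fc_eq] at h
  cases hj : Nat.blt (Nat.land (Nat.land (Nat.shiftRight T (Nat.mul 72 r))
      4722366482869645213695) 511) 470
  · rw [hj] at h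
    exact absurd h (by simp)
  · rw [hj] at h
    rw [Nat.blt_eq] at hj
    exact ⟨_, _, hj, Nat.eq_of_beq_eq_true h⟩

end KL
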