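import Pool.Agent.Helper41.KL.Red

set_option autoImplicit false
set_option maxRecDepth 100000

/-!
# Reduction to 470 classes
-/

namespace KL

open KF KC

theorem ckA0 : allB (ckA cA0 0) 1296 = true := by decide +kernel
theorem ckA1 : allB (ckA cA1 1) 1296 = true := by decide +kernel
theorem ckA2 : allB (ckA cA2 2) 1296 = true := by decide +kernel
theorem ckA3 : allB (ckA cA3 3) 1296 = true := by decide +kernel
theorem ckA4 : allB (ckA cA4 4) 1296 = true := by decide +kernel
theorem ckA5 : allB (ckA cA5 5) 1296 = true := by decide +kernel

end KL
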