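import Pool.Agent.Helper41.KL.Ev

set_option autoImplicit false
set_option maxRecDepth 100000

/-!
# The value of the kernel evaluation
-/

namespace KL

open KF KC

theorem sum_filt (p : Nat → Bool) (f : Nat → ℤ) : ∀ l : List Nat,
    (l.map fun a => if p a = true then f a else 0).sum = ((l.filter p).map f).sum
  | [] => rfl
  | a :: l => by
    rw [List.map_cons, List.sum_cons, sum_filt p f l, List.filter_cons]
    cases hp : p a
    · simp
    · simp

theorem sum_split (x y z : Nat → ℤ) : ∀ l : List Nat,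
    (l.map fun a => x a - (y a + z a)).sum = (l.map x).sum - ((l.map y).sum + (l.map z).sum)
  | [] => rfl
  | a :: l => by
    simp only [List.map_cons, List.sum_cons]
    rw [sum_split x y z l]
    ring

theorem sum_cst (l : List Nat) (f : Nat → ℤ) (g : Nat → Nat) (K : ℤ)
    (h : ∀ a ∈ l, f a = (g a : ℤ) + K) :
    (l.map f).sum = (((l.map g).sum : Nat) : ℤ) + l.length * K := by
  induction l with
  | nil => simp
  | cons a l ih =>
    simp only [List.map_cons, List.sum_cons, List.length_cons]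
    rw [ih fun b hb => h b (List.mem_cons_of_mem _ hb), h a List.mem_cons_self]
    push_cast
    ring

theorem ac_beq : ∀ a ∈ AN, ∀ x < 6, ∀ y < 6, Nat.beq (ac a x) (ac a y) = Nat.beq x y := by
  decide +kernel

theorem ac_lt6 : ∀ a ∈ AN, ∀ x < 6, ac a x < 6 := by decide +kernel

theorem mis3_ac {a : Nat} (ha : a ∈ AN) {x y z : Nat} (hx : x < 6) (hy : y < 6) (hz : z < 6)
    (e : Bool) : mis3 (ac a x) (ac a y) (ac a z) e = mis3 x y z e := by
  unfold mis3
  rw [ac_isB a ha x hx y hy z hz]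

theorem bad3_ac {a : Nat} (ha : a ∈ AN) {x y z : Nat} (hx : x < 6) (hy : y < 6) (hz : z < 6)
    (e : Bool) : bad3 (ac a x) (ac a y) (ac a z) e = bad3 x y z e := by
  unfold bad3
  rw [ac_isB a ha x hx y hy z hz, ac_beq a ha x hx y hy, ac_beq a ha y hy z hz]

theorem wr3_ac {a : Nat} (ha : a ∈ AN) {x y z : Nat} (hx : x < 6) (hy : y < 6) (hz : z < 6)
    (e : Bool) : wr3 (ac a x) (ac a y) (ac a z) e = wr3 x y z e := by
  unfold wr3
  rw [mis3_ac ha hx hy hz, bad3_ac ha hx hy hz]

theorem tb_aC (a N : Nat) {t : Nat} (ht : t < 10) : (aC a N).testBit t = N.testBit t := by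
  rw [testBit_rt _ _ ht, rt_aC, ← testBit_rt _ _ ht]

theorem AN_len : AN.length = 60 := by decide +kernel

/-- First row of a type. -/
def xb (X t : Nat) : Nat := ent X 16 65535 t

/-- The conditions on a certificate which are used by the evaluation. -/
structure Fit (C : CT) (X : Nat) : Prop where
  fi : ∀ t < 12, ∀ f < 48, C.fi t f ≤ C.T.nf t
  rx : ∀ t < 12, C.T.nf t = 0 ∨ xb X t = C.T.rb t
  r12 : xb X 12 = C.T.rb 12
  dr : ∀ t < 12, ∀ i, i ≤ C.T.nf t → f96 (C.T.QT.get (xb X t + i)) (C.T.nf t) = C.T.OFF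
  dc : ∀ t < 12, ∀ i, i ≤ C.T.nf t → f96 (C.T.QT.get (xb X t + C.T.nf t)) i = C.T.OFF
  bc : C.BC = 0
  pb : C.PB = BT.L 0
  A : C.A < 2 ^ 20
  M : C.M < 2 ^ 64
  O : C.T.OFF < 2 ^ 64

section
variable {C : CT} {X : Nat} (hC : Fit C X) {N : Nat} (hc : ∀ j < 5, col N j < 6)
include hc

theorem obj_aC (C : CT) {a : Nat} (ha : a ∈ AN) : C.obj (aC a N) = C.obj N := by
  unfold CT.obj
  rw [col_aC _ _ (by norm_num), col_aC _ _ (by norm_num), col_aC _ _ (by norm_num),
    tb_aC _ _ (by norm_num), mis3_ac ha (hc 0 (by norm_num)) (hc 1 (by norm_num))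
    (hc 2 (by norm_num)), bad3_ac ha (hc 0 (by norm_num)) (hc 1 (by norm_num))
    (hc 2 (by norm_num))]

omit hc in
theorem ty_aC (a N : Nat) : ty3 (aC a N) = tc (ac a (col N 0)) (ac a (col N 1)) (ac a (col N 2)) := by
  unfold ty3
  rw [col_aC _ _ (by norm_num), col_aC _ _ (by norm_num), col_aC _ _ (by norm_num)]

omit hc in
theorem tau_aC (a N : Nat) : tau3 (aC a N) = 2 * ty3 (aC a N) + (N.testBit 0).toNat := by
  unfold tau3
  rw [tb_aC _ _ (by norm_num)]

omit hc in
theorem aC_mod (a N : Nat) : aC a N % 1024 = N % 1024 := rt_aC a N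

omit hc in
theorem aC_m2 (a N : Nat) : aC a N / 2 % 8 = N / 2 % 8 := by
  have := aC_mod a N
  omega

omit hc in
theorem aC_m16 (a N : Nat) : aC a N / 16 % 8 = N / 16 % 8 := by
  have := aC_mod a N
  omega

omit hc in
theorem aC_m (a N : Nat) : aC a N % 16 = N % 16 := by
  have := aC_mod a N
  omega

include hC in
/-- The squares with three roots. -/
theorem g3_eq {a : Nat} (ha : a ∈ AN) (ht : ty3 (aC a N) < 6) : C.g3 (aC a N) =
    (f96 (C.T.QT.get (xb X (tau3 (aC a N)) + C.fi (tau3 (aC a N))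
      (8 * ac a (col N 3) + N / 2 % 8))) (C.fi (tau3 (aC a N))
      (8 * ac a (col N 4) + N / 16 % 8)) : ℤ) - C.T.OFF := by
  have hτ : tau3 (aC a N) < 12 := by
    rw [tau_aC]
    have := (N.testBit 0).toNat_le
    omega
  have e3 : fl3 (aC a N) = 8 * ac a (col N 3) + N / 2 % 8 := by
    unfold fl3
    rw [col_aC _ _ (by norm_num), aC_m2]
  have e4 : fl4 (aC a N) = 8 * ac a (col N 4) + N / 16 % 8 := by
    unfold fl4
    rw [col_aC _ _ (by norm_num), aC_m16]
  have l3 : 8 * ac a (col N 3) + N / 2 % 8 < 48 := by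
    have := ac_lt6 a ha _ (hc 3 (by norm_num))
    omega
  have l4 : 8 * ac a (col N 4) + N / 16 % 8 < 48 := by
    have := ac_lt6 a ha _ (hc 4 (by norm_num))
    omega
  unfold CT.g3
  rw [e3, e4]
  have f3 := hC.fi _ hτ _ l3
  have f4 := hC.fi _ hτ _ l4
  split
  · rename_i hn
    rcases hC.rx _ hτ with h | h
    · omega
    · rw [h]
      rfl
  · rename_i hn
    generalize C.fi (tau3 (aC a N)) (8 * ac a (col N 3) + N / 2 % 8) = i at *
    generalize C.fi (tau3 (aC a N)) (8 * ac a (col N 4) + N / 16 % 8) = j at *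
    have : i = C.T.nf (tau3 (aC a N)) ∨ j = C.T.nf (tau3 (aC a N)) := by
      by_contra hcon
      rw [not_or] at hcon
      exact hn ⟨ht, lt_of_le_of_ne f3 hcon.1, lt_of_le_of_ne f4 hcon.2⟩
    rcases this with h | h
    · rw [h, hC.dc _ hτ _ f4, sub_self]
    · rw [h, hC.dr _ hτ _ f3, sub_self]

omit hc in
theorem if_bit (b : Bool) (x y : Nat) : (if b.toNat = 0 then y else x) = bif b then x else y := by
  cases b <;> rfl

/-- Positive part of one automorphism. -/
def pcN (OFF dm km B : Nat) (b : Bool) (w' : Nat) : Nat :=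
  7 * OFF + ((if b.toNat = 0 then 2 * dm else 5 * OFF) + (if w' = 0 then 0 else km * B))

/-- Negative part of one automorphism. -/
def ncN (OFF dm km nd A : Nat) (b : Bool) : Nat :=
  (if b.toNat = 0 then 2 * OFF else 5 * dm) + (nd + km * A)

include hC in
/-- The rows at a canonical triple. -/
theorem rows_eq {a : Nat} (ha : a ∈ AN) (ht : ty3 (aC a N) < 6) {t : Nat}
    (h : ty3 (aC a N) = t) :
    C.g3 (aC a N) + C.gD (aC a N) + C.gB (aC a N) + C.gK (aC a N) + C.gI (aC a N) =
      ((vA C.T.QT C.IM (xb X (2 * t + (N.testBit 0).toNat))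
        (C.FI.get (2 * t + (N.testBit 0).toNat)) (128 * t + N % 16) (3 * col N 3) (3 * col N 4)
        (8 * (N / 2 % 8)) (8 * (N / 16 % 8)) a : Nat) : ℤ) +
      (((ncN C.T.OFF (f96 C.DM (2 * t + (N.testBit 0).toNat))
        (f96 C.KM (2 * t + (N.testBit 0).toNat)) (f96 C.ND (2 * t + (N.testBit 0).toNat)) C.A
        (N.testBit 7) : Nat) : ℤ) -
      ((pcN C.T.OFF (f96 C.DM (2 * t + (N.testBit 0).toNat))
        (f96 C.KM (2 * t + (N.testBit 0).toNat)) C.B (N.testBit 7)
        (mis3 (col N 0) (col N 3) (col N 4) (N.testBit 7)).toNat : Nat) : ℤ)) := by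
  have hτ : tau3 (aC a N) = 2 * t + (N.testBit 0).toNat := by rw [tau_aC, h]
  have e3 := g3_eq hC hc ha ht
  have eD : C.gD (aC a N) = C.dm (tau3 (aC a N)) * (7 * ((N.testBit 7).toNat : ℤ) - 2) +
      C.nd (tau3 (aC a N)) := by
    unfold CT.gD
    rw [if_pos ht, tb_aC _ _ (by norm_num)]
  have eB : C.gB (aC a N) = 0 := by
    unfold CT.gB
    rw [if_pos ht]
    have h1 : C.bc (tau3 (aC a N)) = 0 := by
      unfold CT.bc
      rw [hC.bc]
      simp
    have h2 : C.pb (tau3 (aC a N)) (col (aC a N) 3) (col (aC a N) 4) = 0 := by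
      unfold CT.pb
      rw [hC.pb]
      simp
    rw [h1, h2]
    simp
  have eK : C.gK (aC a N) = (C.km (tau3 (aC a N)) : ℤ) * ((C.A : ℤ) -
      C.B * ((mis3 (col N 0) (col N 3) (col N 4) (N.testBit 7)).toNat : ℤ)) := by
    unfold CT.gK
    rw [if_pos ht, tb_aC _ _ (by norm_num), col_aC _ _ (by norm_num), col_aC _ _ (by norm_num),
      col_aC _ _ (by norm_num), mis3_ac ha (hc 0 (by norm_num)) (hc 3 (by norm_num))
      (hc 4 (by norm_num))]
  have eI : C.gI (aC a N) = 6 * C.im (aC a N) + C.ni (aC a N) := by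
    unfold CT.gI
    rw [if_pos ht]
  have eim : C.im (aC a N) = (f96 (C.IM.get (128 * t + N % 16 + 16 * ac a (col N 3)))
      (ac a (col N 4)) : ℤ) - C.T.OFF := by
    unfold CT.im
    rw [f96_eq, h, col_aC _ _ (by norm_num), col_aC _ _ (by norm_num), aC_m,
      Nat.add_right_comm]
  have eni : C.ni (aC a N) = f96 (C.IM.get (128 * t + N % 16 + 16 * ac a (col N 3))) 6 := by
    unfold CT.ni
    rw [f96_eq, h, col_aC _ _ (by norm_num), aC_m, Nat.add_right_comm]
  have ev : vA C.T.QT C.IM (xb X (2 * t + (N.testBit 0).toNat))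
        (C.FI.get (2 * t + (N.testBit 0).toNat)) (128 * t + N % 16) (3 * col N 3) (3 * col N 4)
        (8 * (N / 2 % 8)) (8 * (N / 16 % 8)) a =
      f96 (C.T.QT.get (xb X (tau3 (aC a N)) + C.fi (tau3 (aC a N))
      (8 * ac a (col N 3) + N / 2 % 8))) (C.fi (tau3 (aC a N))
      (8 * ac a (col N 4) + N / 16 % 8)) +
      (6 * f96 (C.IM.get (128 * t + N % 16 + 16 * ac a (col N 3))) (ac a (col N 4)) +
        f96 (C.IM.get (128 * t + N % 16 + 16 * ac a (col N 3))) 6) := by
    have x1 : Nat.land (Nat.shiftRight a (3 * col N 3)) 7 = ac a (col N 3) := by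
      rw [← acK_eq]; rfl
    have x2 : Nat.land (Nat.shiftRight a (3 * col N 4)) 7 = ac a (col N 4) := by
      rw [← acK_eq]; rfl
    unfold vA
    simp only [fc_eq, x1, x2, Nat.add_eq, Nat.mul_eq, f8_eq]
    rw [hτ]
    unfold CT.fi f96
    rw [show 8 * (N / 2 % 8) + 64 * ac a (col N 3) = 8 * (8 * ac a (col N 3) + N / 2 % 8) by ring,
      show 8 * (N / 16 % 8) + 64 * ac a (col N 4) = 8 * (8 * ac a (col N 4) + N / 16 % 8) by ring]
  have edm : C.dm (2 * t + (N.testBit 0).toNat) =
      (f96 C.DM (2 * t + (N.testBit 0).toNat) : ℤ) - C.T.OFF := by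
    unfold CT.dm
    rw [f96_eq]
  have ekm : C.km (2 * t + (N.testBit 0).toNat) = f96 C.KM (2 * t + (N.testBit 0).toNat) := by
    unfold CT.km
    rw [f96_eq]
  have end' : C.nd (2 * t + (N.testBit 0).toNat) = f96 C.ND (2 * t + (N.testBit 0).toNat) := by
    unfold CT.nd
    rw [f96_eq]
  rw [ev, e3, eD, eB, eK, eI, eim, eni, hτ, edm, ekm, end']
  unfold pcN ncN
  cases N.testBit 7 <;> cases mis3 (col N 0) (col N 3) (col N 4) _ <;>
  · simp
    ring

/-- Both pairs are wrong. -/
def wpr (N : Nat) : Bool :=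
  wr3 (col N 0) (col N 1) (col N 2) (N.testBit 0) && wr3 (col N 0) (col N 3) (col N 4) (N.testBit 7)

include hC in
/-- The squares with one root. -/
theorem g1_eq {a : Nat} (ha : a ∈ AN) : C.g1 (aC a N) =
    if Nat.beq (ac a (col N 0)) 0 = true then (if wpr N = true then
      ((vO C.T.QT (xb X 12) C.F1 (3 * col N 1) (3 * col N 2) (3 * col N 3) (3 * col N 4)
        (8 * (N.testBit 0).toNat) (8 * (N.testBit 7).toNat) a : Nat) : ℤ) - C.T.OFF else 0)
    else 0 := by
  unfold CT.g1
  rw [col_aC _ _ (by norm_num), col_aC _ _ (by norm_num), col_aC _ _ (by norm_num),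
    col_aC _ _ (by norm_num), col_aC _ _ (by norm_num), tb_aC _ _ (by norm_num),
    tb_aC _ _ (by norm_num), wr3_ac ha (hc 0 (by norm_num)) (hc 1 (by norm_num))
    (hc 2 (by norm_num)), wr3_ac ha (hc 0 (by norm_num)) (hc 3 (by norm_num))
    (hc 4 (by norm_num))]
  have ev : vO C.T.QT (xb X 12) C.F1 (3 * col N 1) (3 * col N 2) (3 * col N 3) (3 * col N 4)
      (8 * (N.testBit 0).toNat) (8 * (N.testBit 7).toNat) a =
      C.T.qe 12 (C.f1 (ac a (col N 1)) (ac a (col N 2)) (N.testBit 0))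
        (C.f1 (ac a (col N 3)) (ac a (col N 4)) (N.testBit 7)) := by
    have x : ∀ j, Nat.land (Nat.shiftRight a (3 * col N j)) 7 = ac a (col N j) := by
      intro j
      rw [← acK_eq]; rfl
    unfold vO
    simp only [fc_eq, x, Nat.add_eq, Nat.mul_eq, f8_eq]
    rw [hC.r12]
    unfold Tab.qe CT.f1 f96
    rw [show 128 * ac a (col N 1) + (16 * ac a (col N 2) + 8 * (N.testBit 0).toNat) =
      8 * (16 * ac a (col N 1) + 2 * ac a (col N 2) + (N.testBit 0).toNat) by ring,
      show 128 * ac a (col N 3) + (16 * ac a (col N 4) + 8 * (N.testBit 7).toNat) =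
      8 * (16 * ac a (col N 3) + 2 * ac a (col N 4) + (N.testBit 7).toNat) by ring]
    rfl
  rw [ev]
  unfold wpr Tab.qi
  by_cases h0 : ac a (col N 0) = 0
  · have : Nat.beq (ac a (col N 0)) 0 = true := by rw [h0]; rfl
    rw [this]
    simp [h0, Bool.and_eq_true]
  · have : Nat.beq (ac a (col N 0)) 0 = false := by
      rw [Bool.eq_false_iff]
      intro h
      exact h0 (Nat.eq_of_beq_eq_true h)
    rw [this]
    simp [h0]

/-- Positive part. -/
noncomputable def posN (C : CT) (N : Nat) : Nat :=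
  let s := selT.val (col N 0 + 8 * col N 1 + 64 * col N 2)
  let τ := 2 * s.1 + (N.testBit 0).toNat
  s.2.1 * pcN C.T.OFF (f96 C.DM τ) (f96 C.KM τ) C.B (N.testBit 7)
    (mis3 (col N 0) (col N 3) (col N 4) (N.testBit 7)).toNat +
  (60 * (C.P * (mis3 (col N 0) (col N 1) (col N 2) (N.testBit 0)).toNat) +
    if wpr N = true then 10 * C.T.OFF else 0)

/-- Negative part. -/
noncomputable def negN (C : CT) (X N : Nat) : Nat :=
  let s := selT.val (col N 0 + 8 * col N 1 + 64 * col N 2)
  let τ := 2 * s.1 + (N.testBit 0).toNat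
  s.2.1 * ncN C.T.OFF (f96 C.DM τ) (f96 C.KM τ) (f96 C.ND τ) C.A (N.testBit 7) +
  (s.2.2.map (vA C.T.QT C.IM (xb X τ) (C.FI.get τ) (128 * s.1 + N % 16) (3 * col N 3)
    (3 * col N 4) (8 * (N / 2 % 8)) (8 * (N / 16 % 8)))).sum +
  (60 * (C.M * (bad3 (col N 0) (col N 1) (col N 2) (N.testBit 0)).toNat) +
    if wpr N = true then ((zerT.val (col N 0)).2.2.map (vO C.T.QT (xb X 12) C.F1 (3 * col N 1)
      (3 * col N 2) (3 * col N 3) (3 * col N 4) (8 * (N.testBit 0).toNat)
      (8 * (N.testBit 7).toNat))).sum else 0)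

include hC in
/-- **The sum over the automorphisms.** -/
theorem sA_eq : sA C.G N = (posN C N : ℤ) - negN C X N := by
  have h0 := hc 0 (by norm_num)
  have h1 := hc 1 (by norm_num)
  have h2 := hc 2 (by norm_num)
  obtain ⟨k1, k2, -, k4⟩ := selT_ck _ h0 _ h1 _ h2
  obtain ⟨z1, z2⟩ := zerT_ck _ h0
  have e0 : sA C.G N = (AN.map fun a => C.obj (aC a N) -
      ((C.g3 (aC a N) + C.gD (aC a N) + C.gB (aC a N) + C.gK (aC a N) + C.gI (aC a N)) +
        C.g1 (aC a N))).sum := by
    unfold sA CT.G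
    congr 1
    refine List.map_congr_left fun a _ => ?_
    ring
  rw [e0, sum_split]
  have e1 : (AN.map fun a => C.obj (aC a N)).sum = 60 * C.obj N := by
    rw [List.map_congr_left fun a ha => obj_aC hc C ha, List.map_const', List.sum_replicate,
      AN_len, nsmul_eq_mul]
    norm_num
  have e2 : (AN.map fun a => C.g3 (aC a N) + C.gD (aC a N) + C.gB (aC a N) + C.gK (aC a N) +
      C.gI (aC a N)).sum = (((selT.val (col N 0 + 8 * col N 1 + 64 * col N 2)).2.2).map fun a =>
      C.g3 (aC a N) + C.gD (aC a N) + C.gB (aC a N) + C.gK (aC a N) + C.gI (aC a N)).sum := by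
    rw [k1, ← sum_filt]
    congr 1
    refine List.map_congr_left fun a _ => ?_
    split
    · rfl
    · rename_i hn
      rw [Nat.blt_eq, ← ty_aC] at hn
      have z3 : C.g3 (aC a N) = 0 := by
        unfold CT.g3
        rw [if_neg fun h => hn h.1]
      have zD : C.gD (aC a N) = 0 := by
        unfold CT.gD
        rw [if_neg hn]
      have zB : C.gB (aC a N) = 0 := by
        unfold CT.gB
        rw [if_neg hn]
      have zK : C.gK (aC a N) = 0 := by
        unfold CT.gK
        rw [if_neg hn]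
      have zI : C.gI (aC a N) = 0 := by
        unfold CT.gI
        rw [if_neg hn]
      rw [z3, zD, zB, zK, zI]
      norm_num
  have e3 := sum_cst (selT.val (col N 0 + 8 * col N 1 + 64 * col N 2)).2.2
    (fun a => C.g3 (aC a N) + C.gD (aC a N) + C.gB (aC a N) + C.gK (aC a N) + C.gI (aC a N))
    _ _ (fun a ha => rows_eq hC hc (a := a)
      (t := (selT.val (col N 0 + 8 * col N 1 + 64 * col N 2)).1)
      (by rw [k1] at ha; exact (List.mem_filter.1 ha).1)
      (by
        rw [k1] at ha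
        have := (List.mem_filter.1 ha).2
        rw [Nat.blt_eq, ← ty_aC] at this
        exact this)
      (by rw [ty_aC]; exact k4 a ha))
  have e4 : (AN.map fun a => C.g1 (aC a N)).sum = if wpr N = true then
      ((((zerT.val (col N 0)).2.2.map (vO C.T.QT (xb X 12) C.F1 (3 * col N 1)
      (3 * col N 2) (3 * col N 3) (3 * col N 4) (8 * (N.testBit 0).toNat)
      (8 * (N.testBit 7).toNat))).sum : Nat) : ℤ) - 10 * C.T.OFF else 0 := by
    rw [List.map_congr_left fun a ha => g1_eq hC hc ha, sum_filt, ← z1]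
    split
    · rw [sum_cst _ _ _ (-(C.T.OFF : ℤ)) (fun a _ => sub_eq_add_neg _ _), z2]
      push_cast
      ring
    · simp
  rw [e1, e2, e3, e4, k2]
  unfold posN negN CT.obj
  simp only []
  split <;>
  · push_cast
    ring

end

end KL
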