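import Pool.Agent.Helper41.KL.Sp

set_option autoImplicit false
set_option maxRecDepth 100000

/-!
# The value of the kernel evaluation
-/

namespace KL

open KF KC

theorem tb_nat (N t : Nat) : N / 2 ^ t % 2 = (N.testBit t).toNat := by
  rw [Nat.toNat_testBit]

section
variable {C : CT} {N : Nat} (hN : N < 2 ^ 25) (hc : ∀ j < 5, col N j < 6)

theorem f_u (N : Nat) : Nat.land (Nat.shiftRight N 10) 511 =
    col N 0 + 8 * col N 1 + 64 * col N 2 := by
  rw [shr_eq, show Nat.land (N / 2 ^ 10) 511 = N / 2 ^ 10 % 512 from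
    Nat.and_two_pow_sub_one_eq_mod _ 9, col_eq, col_eq, col_eq]
  norm_num
  omega

theorem f_e (N : Nat) : Nat.land N 1 = (N.testBit 0).toNat := by
  rw [← tb_nat, show Nat.land N 1 = N % 2 from Nat.and_two_pow_sub_one_eq_mod _ 1]
  norm_num

theorem f_b (N : Nat) : Nat.land (Nat.shiftRight N 7) 1 = (N.testBit 7).toNat := by
  rw [← tb_nat, shr_eq, show Nat.land (N / 2 ^ 7) 1 = N / 2 ^ 7 % 2 from
    Nat.and_two_pow_sub_one_eq_mod _ 1]

include hN in
theorem f_v : Nat.shiftRight N 19 = col N 3 + 8 * col N 4 := by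
  rw [shr_eq, col_eq, col_eq]
  norm_num at hN ⊢
  omega

theorem f_15 (N : Nat) : Nat.land N 15 = N % 16 := Nat.and_two_pow_sub_one_eq_mod _ 4

/-- The kind of a triple. -/
def knd (a b c : Nat) (e : Bool) : Nat :=
  if mis3 a b c e = true then 1 else if bad3 a b c e = true then 2 else 0

theorem knd_ck : ∀ a < 6, ∀ b < 6, ∀ c < 6, ∀ e : Bool,
    Nat.land (knd a b c e) 1 = (mis3 a b c e).toNat ∧
    Nat.land (knd a b c e) 2 = 2 * (bad3 a b c e).toNat ∧
    (knd a b c e = 0 ↔ wr3 a b c e = false) := by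
  intro a _ b _ c _ e
  unfold knd wr3 mis3 bad3
  generalize isB a b c = x
  generalize (Nat.beq a b && Nat.beq b c) = y
  revert e x y
  decide

include hN hc in
theorem wK_eq (C : CT) (X : Nat) : wK C.FI C.T.QT C.IM X C.F1 C.DM C.KM C.ND C.A C.B C.P C.M
    C.T.OFF N = BIG + posN C N - negN C X N := by
  have h0 := hc 0 (by norm_num)
  have h1 := hc 1 (by norm_num)
  have h2 := hc 2 (by norm_num)
  have h3 := hc 3 (by norm_num)
  have h4 := hc 4 (by norm_num)
  have ew : Nat.land (Nat.shiftRight WRT (4 * (col N 0 + 8 * col N 1 + 64 * col N 2) +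
      2 * (N.testBit 0).toNat)) 3 = knd (col N 0) (col N 1) (col N 2) (N.testBit 0) :=
    WRT_ck _ h0 _ h1 _ h2 _
  have ew' : Nat.land (Nat.shiftRight WRT (4 * (col N 0 + 8 * (col N 3 + 8 * col N 4)) +
      2 * (N.testBit 7).toNat)) 3 = knd (col N 0) (col N 3) (col N 4) (N.testBit 7) := by
    rw [show col N 0 + 8 * (col N 3 + 8 * col N 4) = col N 0 + 8 * col N 3 + 64 * col N 4 by
      ring]
    exact WRT_ck _ h0 _ h3 _ h4 _
  have l0 : Nat.land (col N 0 + 8 * col N 1 + 64 * col N 2) 7 = col N 0 := by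
    rw [land7]
    omega
  have l1 : Nat.land (Nat.shiftRight (col N 0 + 8 * col N 1 + 64 * col N 2) 3) 7 = col N 1 := by
    rw [land7, shr_eq]
    norm_num
    omega
  have l2 : Nat.shiftRight (col N 0 + 8 * col N 1 + 64 * col N 2) 6 = col N 2 := by
    rw [shr_eq]
    norm_num
    omega
  have l3 : Nat.land (col N 3 + 8 * col N 4) 7 = col N 3 := by
    rw [land7]
    omega
  have l4 : Nat.shiftRight (col N 3 + 8 * col N 4) 3 = col N 4 := by
    rw [shr_eq]
    norm_num
    omega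
  have m3 : Nat.land (Nat.shiftRight N 1) 7 = N / 2 % 8 := by
    rw [land7, shr_eq]
    norm_num
  have m4 : Nat.land (Nat.shiftRight N 4) 7 = N / 16 % 8 := by
    rw [land7, shr_eq]
    norm_num
  have hrb : ∀ τ, ent X 16 65535 τ = xb X τ := fun _ => rfl
  obtain ⟨k1, k2, k3⟩ := knd_ck _ h0 _ h1 _ h2 (N.testBit 0)
  obtain ⟨q1, q2, q3⟩ := knd_ck _ h0 _ h3 _ h4 (N.testBit 7)
  have gu := f_u N
  have ge := f_e N
  have gb := f_b N
  have g15 := f_15 N
  unfold wK
  simp only [fc_eq, gu, ge, gb, f_v hN, g15, ST.get_eq, lsK_eq, Nat.add_eq, Nat.mul_eq,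
    Nat.sub_eq, l0, l1, l2, l3, l4, m3, m4, ew, ew', hrb, b2_eq, k1, k2, q1]
  have a1 : ∀ (m : Bool) (P : Nat), (if m.toNat = 0 then 0 else 60 * P) =
      60 * (P * m.toNat) := by
    intro m P
    cases m <;> simp
  have a2 : ∀ (m : Bool) (P : Nat), (if 2 * m.toNat = 0 then 0 else 60 * P) =
      60 * (P * m.toNat) := by
    intro m P
    cases m <;> simp
  rw [a1, a2]
  unfold posN negN pcN ncN wpr
  simp only []
  generalize knd (col N 0) (col N 1) (col N 2) (N.testBit 0) = kw at *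
  generalize knd (col N 0) (col N 3) (col N 4) (N.testBit 7) = kw' at *
  generalize wr3 (col N 0) (col N 1) (col N 2) (N.testBit 0) = r at *
  generalize wr3 (col N 0) (col N 3) (col N 4) (N.testBit 7) = r' at *
  cases r
  · have : kw = 0 := k3.2 rfl
    rw [if_pos this]
    simp only [Bool.false_and, Bool.false_eq_true, if_false, Nat.add_zero]
  · have : ¬ kw = 0 := fun h => by simpa using k3.1 h
    rw [if_neg this]
    cases r'
    · have : kw' = 0 := q3.2 rfl
      rw [if_pos this]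
      simp only [Bool.and_false, Bool.false_eq_true, if_false, Nat.add_zero]
    · have : ¬ kw' = 0 := fun h => by simpa using q3.1 h
      rw [if_neg this]
      simp only [Bool.and_self, if_true]
      congr 1 <;> ring

/-! ## Bounds -/

theorem sum_le (f : Nat → Nat) (K : Nat) (h : ∀ a, f a ≤ K) (l : List Nat) (hl : l.length ≤ 10) :
    (l.map f).sum ≤ 10 * K := by
  have h1 := List.sum_le_card_nsmul (l.map f) K (by
    intro x hx
    obtain ⟨a, _, rfl⟩ := List.mem_map.1 hx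
    exact h a)
  rw [List.length_map, smul_eq_mul] at h1
  exact h1.trans (Nat.mul_le_mul_right K hl)

theorem vA_le (QT IM : BT) (rb ft im0 s3 s4 b3 b4 a : Nat) :
    vA QT IM rb ft im0 s3 s4 b3 b4 a ≤ 2 ^ 99 := by
  unfold vA
  simp only [fc_eq, Nat.add_eq, Nat.mul_eq]
  refine le_trans (Nat.add_le_add (f96_lt _ _).le (Nat.add_le_add
    (Nat.mul_le_mul_left 6 (f96_lt _ _).le) (f96_lt _ _).le)) ?_
  norm_num

theorem vO_le (QT : BT) (rb F s1 s2 s3 s4 e b a : Nat) :
    vO QT rb F s1 s2 s3 s4 e b a ≤ 2 ^ 96 := by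
  unfold vO
  simp only [fc_eq]
  exact (f96_lt _ _).le

theorem ncN_le {OFF dm km nd A : Nat} (b : Bool) (h1 : OFF < 2 ^ 64) (h2 : dm < 2 ^ 96)
    (h3 : km < 2 ^ 96) (h4 : nd < 2 ^ 96) (h5 : A < 2 ^ 20) : ncN OFF dm km nd A b ≤ 2 ^ 117 := by
  unfold ncN
  have hk : km * A ≤ 2 ^ 96 * 2 ^ 20 := Nat.mul_le_mul h3.le h5.le
  norm_num at *
  split <;> omega

variable {X : Nat} (hC : Fit C X)
include hC hc

theorem negN_le : negN C X N ≤ BIG := by
  have h0 := hc 0 (by norm_num)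
  have h1 := hc 1 (by norm_num)
  have h2 := hc 2 (by norm_num)
  obtain ⟨k1, k2, k3, k4⟩ := selT_ck _ h0 _ h1 _ h2
  obtain ⟨z1, z2⟩ := zerT_ck _ h0
  have i1 := sum_le _ _ (vA_le C.T.QT C.IM (xb X (2 *
    (selT.val (col N 0 + 8 * col N 1 + 64 * col N 2)).1 + (N.testBit 0).toNat))
    (C.FI.get (2 * (selT.val (col N 0 + 8 * col N 1 + 64 * col N 2)).1 +
      (N.testBit 0).toNat)) (128 * (selT.val (col N 0 + 8 * col N 1 + 64 * col N 2)).1 + N % 16)
    (3 * col N 3) (3 * col N 4) (8 * (N / 2 % 8)) (8 * (N / 16 % 8)))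
    (selT.val (col N 0 + 8 * col N 1 + 64 * col N 2)).2.2 (k2.le.trans k3)
  have i2 := sum_le _ _ (vO_le C.T.QT (xb X 12) C.F1 (3 * col N 1) (3 * col N 2)
    (3 * col N 3) (3 * col N 4) (8 * (N.testBit 0).toNat) (8 * (N.testBit 7).toNat))
    (zerT.val (col N 0)).2.2 z2.le
  have i3 := ncN_le (N.testBit 7) hC.O (f96_lt C.DM (2 *
    (selT.val (col N 0 + 8 * col N 1 + 64 * col N 2)).1 + (N.testBit 0).toNat))
    (f96_lt C.KM (2 *
    (selT.val (col N 0 + 8 * col N 1 + 64 * col N 2)).1 + (N.testBit 0).toNat))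
    (f96_lt C.ND (2 *
    (selT.val (col N 0 + 8 * col N 1 + 64 * col N 2)).1 + (N.testBit 0).toNat)) hC.A
  have i4 := Nat.mul_le_mul k3 i3
  have i5 : C.M * (bad3 (col N 0) (col N 1) (col N 2) (N.testBit 0)).toNat ≤ 2 ^ 64 :=
    (Nat.mul_le_mul hC.M.le (Bool.toNat_le _)).trans (by norm_num)
  unfold negN
  simp only []
  have i6 : (if wpr N = true then ((zerT.val (col N 0)).2.2.map (vO C.T.QT (xb X 12) C.F1
      (3 * col N 1) (3 * col N 2) (3 * col N 3) (3 * col N 4) (8 * (N.testBit 0).toNat)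
      (8 * (N.testBit 7).toNat))).sum else 0) ≤ 10 * 2 ^ 96 := by
    split
    · exact i2
    · exact Nat.zero_le _
  refine le_trans (Nat.add_le_add (Nat.add_le_add i4 i1) (Nat.add_le_add
    (Nat.mul_le_mul_left 60 i5) i6)) ?_
  unfold BIG
  norm_num

include hN in
/-- **The kernel function computes the sum over the automorphisms.** -/
theorem wK_int : ((wK C.FI C.T.QT C.IM X C.F1 C.DM C.KM C.ND C.A C.B C.P C.M C.T.OFF N :
    Nat) : ℤ) = BIG + sA C.G N := by
  have h := negN_le hc hC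
  rw [wK_eq hN hc C X, sA_eq hC hc, Nat.cast_sub (h.trans (Nat.le_add_right _ _))]
  push_cast
  ring

end

end KL
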